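import Pool.Agent.U435.BB.Defs
import Pool.Agent.TH133.Murre

/-!
# Operators induced by correspondences: sums, Kunneth projectors, hypersurface sections
-/

set_option autoImplicit false

open CategoryTheory AlgebraicGeometry

universe u v w

namespace Pool.Agent.U435.BB

open Pool.Agent.H914 Pool.Agent.H914.VarClass Pool.Agent.H914.VarClass.Obj Pool.Agent.W492.BB
  Pool.Agent.W550.Corr Pool.Agent.TH133 Pool.Agent.Q73.LS

set_option linter.unusedSectionVars false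

variable {k : Type u} [Field k] {𝒱 : VarClass k} {C : TheoryData.{u, v, 0} 𝒱 ℚ} {K : Type w}
  [Field K] [hC : IsChowProj C] {H : WeilTheoryData.{u, v, w} C K} [hH : IsWeilProj H]
  {X Y Z W : 𝒱.Obj}

include hC hH

section real

variable {e e' : ℤ}

lemma rzero (X Y : 𝒱.Obj) (e : ℤ) : Realised H X Y e (fun _ => 0) (fun _ => 0) :=
  ⟨0, Submodule.zero_mem _, fun x => C.act_zero x, fun a => by rw [map_zero, H.act_zero]⟩

lemma radd {φ φ' : C.A X → C.A Y} {ψ ψ' : H.A X → H.A Y} (h : Realised H X Y e φ ψ)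
    (h' : Realised H X Y e φ' ψ') :
    Realised H X Y e (fun x => φ x + φ' x) (fun a => ψ a + ψ' a) := by
  obtain ⟨Γ, hΓ, h1, h2⟩ := h
  obtain ⟨Δ, hΔ, h3, h4⟩ := h'
  refine ⟨Γ + Δ, Submodule.add_mem _ hΓ hΔ, fun x => ?_, fun a => ?_⟩
  · rw [C.act_add, h1, h3]
  · rw [map_add, H.act_add, h2, h4]

lemma rsum {ι : Type*} (s : Finset ι) (φ : ι → C.A X → C.A Y) (ψ : ι → H.A X → H.A Y)
    (h : ∀ i ∈ s, Realised H X Y e (φ i) (ψ i)) :
    Realised H X Y e (fun x => ∑ i ∈ s, φ i x) (fun a => ∑ i ∈ s, ψ i a) := by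
  classical
  induction s using Finset.induction_on with
  | empty => simpa using rzero X Y e
  | insert i s hi ih =>
    refine (radd (h i (Finset.mem_insert_self _ _)) (ih fun j hj =>
      h j (Finset.mem_insert_of_mem hj))).congr rfl (fun x => ?_) (fun a => ?_)
    · rw [Finset.sum_insert hi]
    · rw [Finset.sum_insert hi]

lemma cl_algebraMap (q : ℚ) (X : 𝒱.Obj) (z : C.A X) :
    H.cl (q • z) = H.cl (algebraMap ℚ (C.A X) q) * H.cl z := by
  rw [Algebra.smul_def, map_mul]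

lemma rsmul {φ : C.A X → C.A Y} {ψ : H.A X → H.A Y} (q : ℚ)
    (h : Realised H X Y e φ ψ) :
    Realised H X Y e (fun x => q • φ x) (fun a => H.cl (algebraMap ℚ (C.A Y) q) * ψ a) := by
  have hq : algebraMap ℚ (C.A Y) q ∈ C.gr Y 0 := by
    rw [Algebra.algebraMap_eq_smul_one]
    exact Submodule.smul_mem _ _ (C.one_mem Y)
  refine (h.comp (Realised.mul hq)).congr (by ring) (fun x => ?_) (fun a => rfl)
  rw [Algebra.smul_def]

lemma rlin {φ : C.A X → C.A Y} {ψ : H.A X → H.A Y} (h : Realised H X Y e φ ψ) :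
    (∀ x y, φ (x + y) = φ x + φ y) ∧ (∀ x y, φ (x - y) = φ x - φ y) ∧ φ 0 = 0 ∧
    (∀ a b, ψ (a + b) = ψ a + ψ b) ∧ (∀ a b, ψ (a - b) = ψ a - ψ b) ∧ ψ 0 = 0 ∧
    (∀ (q : ℚ) x, φ (q • x) = q • φ x) := by
  obtain ⟨Γ, hΓ, h1, h2⟩ := h
  refine ⟨fun x y => ?_, fun x y => ?_, ?_, fun a b => ?_, fun a b => ?_, ?_, fun q x => ?_⟩
  · rw [← h1, ← h1, ← h1, ← C.actL_apply, map_add]; rfl
  · rw [← h1, ← h1, ← h1, ← C.actL_apply, map_sub]; rfl
  · rw [← h1, ← C.actL_apply, map_zero]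
  · rw [← h2, ← h2, ← h2, ← H.actL_apply, map_add]; rfl
  · rw [← h2, ← h2, ← h2, ← H.actL_apply, map_sub]; rfl
  · rw [← h2, ← H.actL_apply, map_zero]
  · rw [← h1, ← h1, ← C.actL_apply, map_smul]; rfl

lemma rmemH {φ : C.A X → C.A Y} {ψ : H.A X → H.A Y} (h : Realised H X Y e φ ψ) {m : ℤ}
    {a : H.A X} (ha : a ∈ H.gr X m) : ψ a ∈ H.gr Y (m + 2 * e) := by
  obtain ⟨Γ, hΓ, h1, h2⟩ := h
  rw [← h2]
  exact actH_mem H hΓ ha

lemma rmem {φ : C.A X → C.A Y} {ψ : H.A X → H.A Y} (h : Realised H X Y e φ ψ) {m : ℤ}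
    {a : C.A X} (ha : a ∈ C.gr X m) : φ a ∈ C.gr Y (m + e) := by
  obtain ⟨Γ, hΓ, h1, h2⟩ := h
  rw [← h1]
  exact act_mem hΓ ha

/-- An operator on cohomology which vanishes on homogeneous classes vanishes. -/
lemma rext {φ : C.A X → C.A Y} {ψ : H.A X → H.A Y} (h : Realised H X Y e φ ψ)
    (h0 : ∀ (m : ℤ), ∀ a ∈ H.gr X m, ψ a = 0) (a : H.A X) : ψ a = 0 := by
  obtain ⟨Γ, hΓ, h1, h2⟩ := h
  rw [← h2]
  exact act_eq_zero_of_kills H Γ (fun l b hb => by rw [h2]; exact h0 l b hb) a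

end real

/-- `(φ, ψ)` is induced by a self-correspondence of degree zero of `X` whose action on cohomology is
the projection to `H^j(X)`. -/
structure IsProj (H : WeilTheoryData.{u, v, w} C K) (X : 𝒱.Obj) (j : ℤ) (φ : C.A X → C.A X)
    (ψ : H.A X → H.A X) : Prop where
  real : Realised H X X 0 φ ψ
  self : ∀ a ∈ H.gr X j, ψ a = a
  ne : ∀ m, m ≠ j → ∀ a ∈ H.gr X m, ψ a = 0

omit hC hH in
lemma two_cases (m : ℤ) (n : ℕ) : m < 0 ∨ 2 * (n : ℤ) < m ∨ ∃ i : ℕ, i ≤ 2 * n ∧ m = i := by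
  rcases lt_or_ge m 0 with h | h
  · exact Or.inl h
  · rcases lt_or_ge (2 * (n : ℤ)) m with h' | h'
    · exact Or.inr (Or.inl h')
    · refine Or.inr (Or.inr ⟨m.toNat, by omega, by omega⟩)

lemma H_neg {m : ℤ} (hm : m < 0) {a : H.A X} (ha : a ∈ H.gr X m) : a = 0 := by
  rw [H.gr_neg X m hm] at ha
  exact (Submodule.mem_bot _).1 ha

lemma H_top {m : ℤ} (hm : 2 * (X.dim : ℤ) < m) {a : H.A X} (ha : a ∈ H.gr X m) : a = 0 := by
  rw [gr_top H hm] at ha
  exact (Submodule.mem_bot _).1 ha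

/-- If all the components of `x` except the one in degree `m` lie in a subspace, stable under an
operator `φ` and under homologically trivial ones, then `φ x` lies in the subspace if `φ` acts as
zero on `H^m(X)`. -/
lemma sum_decomp {e : ℤ} {φ : C.A X → C.A Y} {ψ : H.A X → H.A Y} (h : Realised H X Y e φ ψ) {m : ℤ}
    (h0 : ∀ a ∈ H.gr X m, ψ a = 0)
    (hP : ∀ j : ℤ, ∃ φ ψ, IsProj H X j φ ψ) (S : Submodule ℚ (C.A Y)) (x : C.A X)
    (h1 : ∀ j : ℤ, j ≠ m → ∀ φ' ψ', IsProj H X j φ' ψ' → φ (φ' x) ∈ S)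
    (h2 : ∀ φ' ψ', Realised H X Y e φ' ψ' → (∀ a, ψ' a = 0) → φ' x ∈ S) : φ x ∈ S := by
  classical
  choose P p hp using hP
  let s : Finset ℤ := Finset.Icc 0 (2 * (X.dim : ℤ))
  let t : Finset ℤ := s.erase m
  have hr : Realised H X Y e (fun x => φ x - ∑ j ∈ t, φ (P j x)) (fun a => ψ a - ∑ j ∈ t, ψ (p j a)) := by
    refine h.sub (rsum t (fun j x => φ (P j x)) (fun j a => ψ (p j a)) fun j _ => ?_)
    exact ((hp j).real.comp h).congr (by ring) (fun _ => rfl) (fun _ => rfl)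
  have hz : ∀ a, ψ a - ∑ j ∈ t, ψ (p j a) = 0 := by
    apply rext hr
    intro l a ha
    by_cases hl : l ∈ t
    · rw [Finset.sum_eq_single l]
      · rw [(hp l).self a ha, sub_self]
      · intro j _ hj
        rw [(hp j).ne l (Ne.symm hj) a ha, (rlin h).2.2.2.2.2.1]
      · intro h'; exact absurd hl h'
    · have hz1 : ψ a = 0 := by
        by_cases hlm : l = m
        · exact h0 a (hlm ▸ ha)
        · have hls : l ∉ s := fun h' => hl (Finset.mem_erase.2 ⟨hlm, h'⟩)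
          have : a = 0 := by
            rw [Finset.mem_Icc, not_and_or, not_le, not_le] at hls
            rcases hls with h' | h'
            · exact H_neg h' ha
            · exact H_top h' ha
          rw [this, (rlin h).2.2.2.2.2.1]
      rw [hz1, Finset.sum_eq_zero, sub_self]
      intro j hj
      rw [(hp j).ne l (fun h' => hl (h' ▸ hj)) a ha, (rlin h).2.2.2.2.2.1]
  have h3 := h2 _ _ hr hz
  have h4 : ∑ j ∈ t, φ (P j x) ∈ S := Submodule.sum_mem _ fun j hj =>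
    h1 j (Finset.ne_of_mem_erase hj) _ _ (hp j)
  have h5 := S.add_mem h3 h4
  rwa [sub_add_cancel] at h5

end Pool.Agent.U435.BB
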