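import Pool.Agent.U435.BB.Main0

/-!
# Existence of Chow-Kunneth decompositions; composites form a multiplicative filtration
-/

set_option autoImplicit false

open CategoryTheory AlgebraicGeometry

universe u v w

namespace Pool.Agent.U435.BB

open Pool.Agent.H914 Pool.Agent.H914.VarClass Pool.Agent.H914.VarClass.Obj Pool.Agent.W492.BB
  Pool.Agent.W550.Corr Pool.Agent.TH133 Pool.Agent.Q73.LS

set_option linter.unusedSectionVars false
set_option linter.unusedTactic false

variable {k : Type u} [Field k] {𝒱 : VarClass k} {C : TheoryData.{u, v, 0} 𝒱 ℚ} {K : Type w}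
  [Field K] [hC : IsChowProj C] {H : WeilTheoryData.{u, v, w} C K} [hH : IsWeilProj H]
  {X Y Z W : 𝒱.Obj} {D : C.A X}

include hC hH

/-- Powers of homologically trivial self-correspondences. -/
lemma cor_pow_mem {G : ∀ X : 𝒱.Obj, ℤ → ℕ → Submodule ℚ (C.A X)} (hG : GoodFil H G)
    {a : Cor C X} (ha : a ∈ cor0 C X) (h0 : H.cl (X := X.prod X) a = 0) (n : ℕ) :
    ((a ^ n : Cor C X) : C.A (X.prod X)) ∈ G (X.prod X) X.dim n := by
  induction n with
  | zero =>
    rw [pow_zero]
    exact (hG.zero _ _ _).2 (dg_mem C X)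
  | succ n ih =>
    have ha' : (a : C.A (X.prod X)) ∈ C.gr (X.prod X) ((X.dim : ℤ) + 0) := by
      rw [add_zero]; exact ha
    have h1 := hG.shift (Realised.extR (H := H) ha' X) (fun c => by
      rw [h0]
      change H.push _ (H.pull _ 0 * _) = 0
      rw [map_zero, zero_mul, map_zero]) ih
    rw [add_zero] at h1
    rw [pow_succ']
    have h2 : C.extR (X := X) (Y := X) a X (a ^ n : Cor C X) =
        C.comp (X := X) (Y := X) (Z := X) (a ^ n : Cor C X) a :=
      (comp_eq_extR C (X := X) (Y := X) (Z := X) (a ^ n : Cor C X) a).symm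
    rw [h2] at h1
    exact h1

/-- If homologically trivial self-correspondences are nilpotent and the Kunneth projectors are
algebraic then there is a Chow-Kunneth decomposition. -/
theorem exists_isCK {G : ∀ X : 𝒱.Obj, ℤ → ℕ → Submodule ℚ (C.A X)} (hG : GoodFil H G)
    (hb : Bdd (C := C) G) (hP : ∀ j : ℤ, ∃ φ ψ, IsProj H X j φ ψ) : ∃ π, IsCK H X π := by
  classical
  let f : cor0 C X →+* Module.End K (H.A X) :=
    (actH C X H).comp (cor0 C X).toSubring.subtype
  have hf : ∀ (a : cor0 C X) (x : H.A X), f a x = H.act (X := X) (Y := X)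
      (H.cl (X := X.prod X) (a : Cor C X)) x := fun a x => rfl
  have hker : ∀ x ∈ RingHom.ker f, IsNilpotent x := by
    intro a ha
    have h0 : H.cl (X := X.prod X) (a : Cor C X) = 0 := by
      apply eq_zero_of_act H
      intro x
      rw [← hf, (RingHom.mem_ker).1 ha]
      rfl
    refine ⟨X.dim + 1, ?_⟩
    apply Subtype.ext
    have h1 := cor_pow_mem hG a.2 h0 (X.dim + 1)
    exact hb _ _ _ _ (by push_cast; omega) h1
  choose φ ψ hp using hP
  have hΓ : ∀ j : ℤ, ∃ a : cor0 C X, ∀ x, f a x = ψ j x := by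
    intro j
    obtain ⟨Γ, h1, h2, h3⟩ := (hp j).real
    rw [add_zero] at h1
    exact ⟨⟨Γ, h1⟩, fun x => h3 x⟩
  choose γ hγ using hΓ
  let e : Fin (2 * X.dim + 1) → Module.End K (H.A X) := fun i => f (γ (i : ℕ))
  have he : ∀ (i : Fin (2 * X.dim + 1)) (m : ℤ) (a : H.A X), a ∈ H.gr X m →
      e i a = if m = (i : ℕ) then a else 0 := by
    intro i m a ha
    change f (γ (i : ℕ)) a = _
    rw [hγ]
    split_ifs with h
    · exact (hp _).self a (h ▸ ha)
    · exact (hp _).ne m h a ha
  have hmem : ∀ (i : Fin (2 * X.dim + 1)) (m : ℤ) (a : H.A X), a ∈ H.gr X m →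
      e i a ∈ H.gr X m := by
    intro i m a ha
    rw [he i m a ha]
    split_ifs
    · exact ha
    · exact Submodule.zero_mem _
  have hcomplete : CompleteOrthogonalIdempotents e := by
    refine ⟨⟨fun i => ?_, fun i j hij => ?_⟩, ?_⟩
    · apply ext_gr H
      intro m a ha
      change e i (e i a) = e i a
      by_cases h : m = (i : ℕ)
      · rw [he i m a ha, if_pos h, he i m a ha, if_pos h]
      · rw [he i m a ha, if_neg h, map_zero]
    · apply ext_gr H
      intro m a ha
      change e i (e j a) = 0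
      by_cases h : m = (j : ℕ)
      · rw [he j m a ha, if_pos h, he i m a ha, if_neg]
        intro h'
        apply hij
        apply Fin.ext
        exact_mod_cast h'.symm.trans h
      · rw [he j m a ha, if_neg h, map_zero]
    · apply ext_gr H
      intro m a ha
      rw [LinearMap.sum_apply]
      rcases two_cases m X.dim with h | h | ⟨i, hi, rfl⟩
      · rw [H_neg h ha]; simp
      · rw [H_top h ha]; simp
      · rw [Finset.sum_eq_single (⟨i, by omega⟩ : Fin (2 * X.dim + 1))]
        · rw [he _ _ a ha, if_pos rfl]; rfl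
        · intro j _ hj
          rw [he j _ a ha, if_neg]
          intro h'
          apply hj
          apply Fin.ext
          exact_mod_cast h'.symm
        · intro h'
          exact absurd (Finset.mem_univ _) h'
  obtain ⟨e', h1, h2⟩ := CompleteOrthogonalIdempotents.lift_of_isNilpotent_ker f hker hcomplete
    (fun i => ⟨_, rfl⟩)
  have h2' : ∀ i, f (e' i) = e i := fun i => congr_fun h2 i
  let π : ℕ → C.A (X.prod X) := fun i =>
    if h : i < 2 * X.dim + 1 then ((e' ⟨i, h⟩ : cor0 C X) : Cor C X) else 0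
  have hπ : ∀ i (h : i < 2 * X.dim + 1), π i = ((e' ⟨i, h⟩ : cor0 C X) : Cor C X) :=
    fun i h => dif_pos h
  have hπ0 : ∀ i, ¬ i < 2 * X.dim + 1 → π i = 0 := fun i h => dif_neg h
  have hact : ∀ (i : ℕ) (m : ℤ) (a : H.A X), a ∈ H.gr X m →
      H.act (H.cl (π i)) a = if m = i then a else 0 := by
    intro i m a ha
    by_cases h : i < 2 * X.dim + 1
    · rw [hπ i h]
      have := hf (e' ⟨i, h⟩) a
      rw [h2', he _ m a ha] at this
      exact this.symm
    · rw [hπ0 i h, map_zero, H.act_zero]
      split_ifs with h'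
      · rw [H_top (by omega) ha]
      · rfl
  refine ⟨π, ⟨fun i => ?_, fun i hi => hπ0 i (by omega), fun i => ?_, fun i j hij => ?_, ?_,
    fun i a ha => ?_, fun i m a hm ha => ?_⟩⟩
  · by_cases h : i < 2 * X.dim + 1
    · rw [hπ i h]; exact (e' ⟨i, h⟩).2
    · rw [hπ0 i h]; exact Submodule.zero_mem _
  · by_cases h : i < 2 * X.dim + 1
    · rw [hπ i h]
      exact congrArg (Subtype.val) (h1.idem ⟨i, h⟩)
    · rw [hπ0 i h, zero_comp]
  · by_cases h : i < 2 * X.dim + 1
    · by_cases h' : j < 2 * X.dim + 1
      · rw [hπ i h, hπ j h']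
        have h3 := h1.ortho (i := ⟨j, h'⟩) (j := ⟨i, h⟩) (by
          intro h4; apply hij; exact (Fin.mk.inj_iff.1 h4).symm)
        exact congrArg (Subtype.val) h3
      · rw [hπ0 j h', comp_zero]
    · rw [hπ0 i h, zero_comp]
  · have h3 := congrArg (Subtype.val) h1.complete
    rw [AddSubmonoidClass.coe_finsetSum] at h3
    rw [← Fin.sum_univ_eq_sum_range]
    refine Eq.trans (Finset.sum_congr rfl fun i _ => ?_) h3
    exact hπ i i.2
  · rw [hact i i a ha, if_pos rfl]
  · rw [hact i m a ha, if_neg hm]

/-- External products of composites. -/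
lemma ext_mem_P {n : ℕ} {W : 𝒱.Obj} {j : ℕ} {y : C.A W} (hy : Composite H n W j y) {m : ℕ} {i : ℤ}
    {x : C.A X} (hx : x ∈ P H X i m) : C.ext x y ∈ P H (X.prod W) (i + j) (m + n) := by
  induction hy with
  | zero W j y hy =>
    have h1 := P_stable ((Realised.pull (H := H) (fst X W)).comp
      (Realised.mul (C.pull_mem (snd X W) hy))) hx
    rw [zero_add] at h1
    rw [TheoryData.ext, ch_comm]
    exact h1
  | succ n W' W l j y γ hy hγ h0 ih =>
    have hγ' : γ ∈ C.gr (W'.prod W) ((W'.dim : ℤ) + (j - l)) := by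
      have : (W'.dim : ℤ) + j - l = W'.dim + (j - l) := by ring
      rw [← this]; exact hγ
    have h1 := P_shift (Realised.extR (H := H) hγ' X) (fun c => by
      rw [h0]
      change H.push _ (H.pull _ 0 * _) = 0
      rw [map_zero, zero_mul, map_zero]) ih
    rw [C.extR_ext γ (fun c => ch_comm C _ _), show i + l + ((j : ℤ) - l) = i + j by ring] at h1
    exact h1

lemma mul_mem_P {i j : ℤ} {m n : ℕ} {x y : C.A X} (hx : x ∈ P H X i m) (hy : y ∈ P H X j n) :
    x * y ∈ P H X (i + j) (m + n) := by
  rcases lt_or_ge j 0 with hj | hj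
  · rw [P, ext_neg _ X hj] at hy
    rw [(Submodule.mem_bot _).1 hy, mul_zero]
    exact Submodule.zero_mem _
  obtain ⟨j, rfl⟩ := exists_nat_of_nonneg hj
  rw [P, ext_nat] at hy
  have hle : compSpan H X j n ≤ (P H X (i + j) (m + n)).comap (LinearMap.mulLeft ℚ x) := by
    refine Submodule.span_le.2 fun y hy => ?_
    change x * y ∈ P H X (i + j) (m + n)
    have h1 := P_stable (Realised.pull (H := H) (Obj.lift (𝟙 X) (𝟙 X))) (ext_mem_P hy hx)
    rw [add_zero, TheoryData.ext, map_mul, ← C.pull_comp, ← C.pull_comp, lift_fst, lift_snd,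
      C.pull_id, C.pull_id] at h1
    exact h1
  exact hle hy

/-- The filtration by composites of homologically trivial correspondences. -/
def composites (H : WeilTheoryData.{u, v, w} C K) [IsWeilProj H] : Filtration C where
  F := compSpan H
  le_gr := compSpan_le_gr
  anti := compSpan_anti

theorem composites_multiplicative : IsMultiplicative (composites H) where
  mul := by
    intro X i j m n x y hx hy
    change x ∈ compSpan H X i m at hx
    change y ∈ compSpan H X j n at hy
    change x * y ∈ compSpan H X (i + j) (m + n)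
    rw [← ext_nat (compSpan H)] at hx hy ⊢
    rw [Nat.cast_add]
    exact mul_mem_P hx hy
  pull := by
    intro X Y f i n y hy
    change y ∈ compSpan H Y i n at hy
    change C.pull f y ∈ compSpan H X i n
    rw [← ext_nat (compSpan H)] at hy ⊢
    have := P_stable (Realised.pull (H := H) f) hy
    rwa [add_zero] at this
  push := by
    intro X Y f i j n x hij hx
    change x ∈ compSpan H X i n at hx
    change C.push f x ∈ compSpan H Y j n
    rw [← ext_nat (compSpan H)] at hx ⊢
    have := P_stable (Realised.push (H := H) f) hx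
    rwa [show (i : ℤ) + (Y.dim - X.dim) = j by omega] at this

theorem composites_zero (X : 𝒱.Obj) (i : ℕ) (x : C.A X) :
    (composites H).Mem i 0 x ↔ C.Deg i x := compSpan_zero X i x

theorem composites_one (X : 𝒱.Obj) (i : ℕ) (x : C.A X) :
    (composites H).Mem i 1 x ↔ C.Deg i x ∧ H.cl x = 0 := by
  constructor
  · intro hx
    refine ⟨compSpan_le_gr X i 1 hx, ?_⟩
    change x ∈ compSpan H X i 1 at hx
    induction hx using Submodule.span_induction with
    | mem x hx =>
      cases hx with
      | succ _ Y _ j _ y γ hy hγ h0 =>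
        rw [cl_act, h0, H.act_zero]
    | zero => exact map_zero _
    | add x y _ _ hx hy => rw [map_add, hx, hy, add_zero]
    | smul q x _ hx => rw [cl_algebraMap, hx, mul_zero]
  · rintro ⟨hx, h0⟩
    have := P_one (H := H) hx h0
    rwa [P, ext_nat] at this

end Pool.Agent.U435.BB
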