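import Pool.Agent.U435.BB.Zero
import Pool.Agent.TH133.Dual

/-!
# The filtration by composites of homologically trivial correspondences
-/

set_option autoImplicit false

open CategoryTheory AlgebraicGeometry

universe u v w

namespace Pool.Agent.U435.BB

open Pool.Agent.H914 Pool.Agent.H914.VarClass Pool.Agent.H914.VarClass.Obj Pool.Agent.W492.BB
  Pool.Agent.W550.Corr Pool.Agent.TH133 Pool.Agent.Q73.LS

set_option linter.unusedSectionVars false
set_option linter.unusedTactic false

variable {k : Type u} [Field k] {𝒱 : VarClass k} {C : TheoryData.{u, v, 0} 𝒱 ℚ} {K : Type w}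
  [Field K] [hC : IsChowProj C] {H : WeilTheoryData.{u, v, w} C K} [hH : IsWeilProj H]
  {X Y Z W : 𝒱.Obj} {D : C.A X}

include hC hH

lemma Composite.deg {n i : ℕ} {x : C.A X} (h : Composite H n X i x) : x ∈ C.gr X i := by
  induction h with
  | zero X i x hx => exact hx
  | succ n Y X j i y γ hy hγ h0 ih =>
    have hγ' : γ ∈ C.gr (Y.prod X) ((Y.dim : ℤ) + (i - j)) := by
      have : (Y.dim : ℤ) + i - j = Y.dim + (i - j) := by ring
      rw [← this]; exact hγ
    have := act_mem hγ' ih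
    rwa [show (j : ℤ) + (i - j) = i by ring] at this

lemma Composite.pred {n i : ℕ} {x : C.A X} (h : Composite H (n + 1) X i x) :
    Composite H n X i x := by
  generalize hm : n + 1 = m at h
  induction h generalizing n with
  | zero X i x hx => omega
  | succ m Y X j i y γ hy hγ h0 ih =>
    cases n with
    | zero =>
      exact Composite.zero X i _ (Composite.deg (Composite.succ m Y X j i y γ hy hγ h0))
    | succ n => exact Composite.succ n Y X j i y γ (ih (by omega)) hγ h0

lemma compSpan_le_gr (X : 𝒱.Obj) (i n : ℕ) : compSpan H X i n ≤ C.gr X i :=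
  Submodule.span_le.2 fun _ hx => Composite.deg hx

lemma compSpan_anti (X : 𝒱.Obj) (i n : ℕ) : compSpan H X i (n + 1) ≤ compSpan H X i n :=
  Submodule.span_mono fun _ hx => Composite.pred hx

lemma compSpan_zero (X : 𝒱.Obj) (i : ℕ) (x : C.A X) :
    x ∈ compSpan H X i 0 ↔ x ∈ C.gr X i :=
  ⟨fun h => compSpan_le_gr X i 0 h, fun h => Submodule.subset_span (Composite.zero X i x h)⟩

/-- The filtration by composites, for integral codimensions. -/
noncomputable abbrev P (H : WeilTheoryData.{u, v, w} C K) (X : 𝒱.Obj) (i : ℤ) (n : ℕ) :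
    Submodule ℚ (C.A X) := ext (compSpan H) X i n

lemma P_gr (X : 𝒱.Obj) (i : ℤ) (n : ℕ) : P H X i n ≤ C.gr X i := by
  rcases lt_or_ge i 0 with hi | hi
  · rw [P, ext_neg _ X hi]; exact bot_le
  · obtain ⟨i, rfl⟩ := exists_nat_of_nonneg hi
    rw [P, ext_nat]; exact compSpan_le_gr X i n

lemma P_zero (X : 𝒱.Obj) (i : ℤ) (x : C.A X) : x ∈ P H X i 0 ↔ x ∈ C.gr X i := by
  rcases lt_or_ge i 0 with hi | hi
  · rw [P, ext_neg _ X hi, C.gr_neg X i hi]
  · obtain ⟨i, rfl⟩ := exists_nat_of_nonneg hi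
    rw [P, ext_nat]; exact compSpan_zero X i x

lemma P_anti (X : 𝒱.Obj) (i : ℤ) (n : ℕ) : P H X i (n + 1) ≤ P H X i n := by
  rcases lt_or_ge i 0 with hi | hi
  · rw [P, P, ext_neg _ X hi, ext_neg _ X hi]
  · obtain ⟨i, rfl⟩ := exists_nat_of_nonneg hi
    rw [P, P, ext_nat, ext_nat]; exact compSpan_anti X i n

lemma P_shift {e : ℤ} {φ : C.A X → C.A Y} {ψ : H.A X → H.A Y} (h : Realised H X Y e φ ψ)
    (h0 : ∀ a, ψ a = 0) {i : ℤ} {n : ℕ} {x} (hx : x ∈ P H X i n) :
    φ x ∈ P H Y (i + e) (n + 1) := by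
  have hgr := rmem h (P_gr X i n hx)
  obtain ⟨Γ, hΓ, h1, h2⟩ := h
  have hcl : H.cl Γ = 0 := eq_zero_of_act H _ fun a => by rw [h2, h0]
  rcases lt_or_ge i 0 with hi | hi
  · rw [P, ext_neg _ X hi] at hx
    rw [← h1, (Submodule.mem_bot _).1 hx, C.act_map_zero]
    exact Submodule.zero_mem _
  obtain ⟨i, rfl⟩ := exists_nat_of_nonneg hi
  rcases lt_or_ge ((i : ℤ) + e) 0 with hj | hj
  · rw [C.gr_neg Y _ hj] at hgr
    rw [(Submodule.mem_bot _).1 hgr]
    exact Submodule.zero_mem _
  obtain ⟨j, hj⟩ := exists_nat_of_nonneg hj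
  rw [hj, P, ext_nat]
  rw [P, ext_nat] at hx
  rw [← h1]
  have hmap : compSpan H X i n ≤ (compSpan H Y j (n + 1)).comap (C.actL Γ) := by
    refine Submodule.span_le.2 fun y hy => Submodule.subset_span ?_
    exact Composite.succ n X Y i j y Γ hy (by
      rw [TheoryData.Deg, show (X.dim : ℤ) + j - i = X.dim + e by omega]; exact hΓ) hcl
  exact hmap hx

lemma P_stable {e : ℤ} {φ : C.A X → C.A Y} {ψ : H.A X → H.A Y} (h : Realised H X Y e φ ψ)
    {i : ℤ} {n : ℕ} {x} (hx : x ∈ P H X i n) : φ x ∈ P H Y (i + e) n := by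
  have hgr := rmem h (P_gr X i n hx)
  cases n with
  | zero => exact (P_zero Y _ _).2 hgr
  | succ n =>
  obtain ⟨Γ, hΓ, h1, h2⟩ := h
  rcases lt_or_ge i 0 with hi | hi
  · rw [P, ext_neg _ X hi] at hx
    rw [← h1, (Submodule.mem_bot _).1 hx, C.act_map_zero]
    exact Submodule.zero_mem _
  obtain ⟨i, rfl⟩ := exists_nat_of_nonneg hi
  rcases lt_or_ge ((i : ℤ) + e) 0 with hj | hj
  · rw [C.gr_neg Y _ hj] at hgr
    rw [(Submodule.mem_bot _).1 hgr]
    exact Submodule.zero_mem _
  obtain ⟨j, hj⟩ := exists_nat_of_nonneg hj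
  rw [hj, P, ext_nat]
  rw [P, ext_nat] at hx
  rw [← h1]
  have hmap : compSpan H X i (n + 1) ≤ (compSpan H Y j (n + 1)).comap (C.actL Γ) := by
    refine Submodule.span_le.2 fun y hy => Submodule.subset_span ?_
    change Composite H (n + 1) X i y at hy
    change Composite H (n + 1) Y j (C.act Γ y)
    cases hy with
    | succ _ W _ l _ w γ hw hγ hγ0 =>
      rw [← C.act_comp]
      have hγ' : γ ∈ C.gr (W.prod X) ((W.dim : ℤ) + (i - l)) := by
        rw [show (W.dim : ℤ) + (i - l) = W.dim + i - l by ring]; exact hγ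
      refine Composite.succ n W Y l j w _ hw ?_ ?_
      · have := comp_mem C hγ' hΓ
        rw [TheoryData.Deg, show (W.dim : ℤ) + j - l = W.dim + (i - l + e) by omega]
        exact this
      · rw [cl_comp H, hγ0]
        rw [TheoryData.comp, map_zero, mul_zero, map_zero]
  exact hmap hx

/-- Homologically trivial classes are composites of length one. -/
lemma P_one {i : ℤ} {x : C.A X} (hx : x ∈ C.gr X i) (h0 : H.cl x = 0) : x ∈ P H X i 1 := by
  obtain ⟨a, ha, h1, h2⟩ := exists_deg_one C X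
  rcases lt_or_ge i 0 with hi | hi
  · rw [C.gr_neg X i hi] at hx
    rw [(Submodule.mem_bot _).1 hx]
    exact Submodule.zero_mem _
  obtain ⟨i, rfl⟩ := exists_nat_of_nonneg hi
  rw [P, ext_nat]
  have e1 : C.act (C.pull (snd X X) x) a = x := by
    rw [TheoryData.act_apply, C.proj_left, h2, mul_one]
  rw [← e1]
  refine Submodule.subset_span (Composite.succ 0 X X X.dim i a _
    (Composite.zero X X.dim a ha) ?_ ?_)
  · rw [TheoryData.Deg, show (X.dim : ℤ) + i - X.dim = i by ring]
    exact C.pull_mem _ hx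
  · rw [H.cl_pull, h0, map_zero]

/-- The filtration by composites is contained in all filtrations with the properties 1, 3, 4. -/
theorem P_le {G : ∀ X : 𝒱.Obj, ℤ → ℕ → Submodule ℚ (C.A X)} (hG : GoodFil H G) (X : 𝒱.Obj)
    (i : ℤ) (n : ℕ) : P H X i n ≤ G X i n := by
  rcases lt_or_ge i 0 with hi | hi
  · rw [P, ext_neg _ X hi]; exact bot_le
  · obtain ⟨i, rfl⟩ := exists_nat_of_nonneg hi
    rw [P, ext_nat]
    refine Submodule.span_le.2 fun x hx => ?_
    change Composite H n X i x at hx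
    induction hx with
    | zero X i x hx => exact (hG.zero X i x).2 hx
    | succ n Y X j i y γ hy hγ h0 ih =>
      have hγ' : γ ∈ C.gr (Y.prod X) ((Y.dim : ℤ) + (i - j)) := by
        have : (Y.dim : ℤ) + i - j = Y.dim + (i - j) := by ring
        rw [← this]; exact hγ
      have := hG.shift (Realised.of (H := H) hγ') (fun a => by
        rw [h0, H.act_zero]) (ih (by omega))
      rwa [show (j : ℤ) + (i - j) = i by ring] at this

end Pool.Agent.U435.BB
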