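import Pool.Agent.Q73.LS.Defs

/-!
# Bloch-Beilinson filtrations and composites of homologically trivial correspondences: definitions
-/

set_option autoImplicit false

open CategoryTheory AlgebraicGeometry

universe u v w

namespace Pool.Agent.U435.BB

open Pool.Agent.H914 Pool.Agent.H914.VarClass Pool.Agent.H914.VarClass.Obj Pool.Agent.W492.BB
  Pool.Agent.W550.Corr Pool.Agent.TH133 Pool.Agent.Q73.LS

variable {k : Type u} [Field k] {𝒱 : VarClass k} {C : TheoryData.{u, v, 0} 𝒱 ℚ} {K : Type w}
  [Field K] (H : WeilTheoryData.{u, v, w} C K)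

/-- Grothendieck's standard conjecture of Lefschetz type `B(X)`, for the class `D` of an ample
divisor on `X`, `d = dim X`: for `l ≤ d` there is an algebraic correspondence `θ ∈ CH^l(X × X)` such
that `θ : H^(2d-l)(X) → H^l(X)` is the inverse of `D^(d-l) : H^l(X) → H^(2d-l)(X)` (so the latter is
bijective: hard Lefschetz is part of the property). -/
structure LefschetzB {X : 𝒱.Obj} (D : C.A X) : Prop where
  deg : C.Deg 1 D
  inverse : ∀ l : ℕ, l ≤ X.dim → ∃ θ : C.A (X.prod X), C.Deg l θ ∧
    (∀ a, H.Deg l a → H.act (H.cl θ) (H.mul (H.cl D ^ (X.dim - l)) a) = a) ∧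
    ∀ b, H.Deg (2 * X.dim - l) b → H.mul (H.cl D ^ (X.dim - l)) (H.act (H.cl θ) b) = b

/-- The standard conjecture of Lefschetz type for `X` in degrees less than `N`, for the class `D` of an
ample divisor, `d = dim X`: for `l < N`, `l ≤ d`, there is an algebraic correspondence
`θ ∈ CH^l(X × X)` such that `θ : H^(2d-l)(X) → H^l(X)` is the inverse of
`D^(d-l) : H^l(X) → H^(2d-l)(X)`. It is known for `N = 2`. -/
structure LefschetzBelow {X : 𝒱.Obj} (D : C.A X) (N : ℕ) : Prop where
  deg : C.Deg 1 D
  inverse : ∀ l : ℕ, l < N → l ≤ X.dim → ∃ θ : C.A (X.prod X), C.Deg l θ ∧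
    (∀ a, H.Deg l a → H.act (H.cl θ) (H.mul (H.cl D ^ (X.dim - l)) a) = a) ∧
    ∀ b, H.Deg (2 * X.dim - l) b → H.mul (H.cl D ^ (X.dim - l)) (H.act (H.cl θ) b) = b

/-- The cohomological properties of a smooth hypersurface section `f : Z → X` for the class `D` of
an ample divisor: `dim Z = dim X - 1`, `f_* [Z]` is a nonzero multiple of `D`, and `f^*` is onto in
degrees below `dim Z` (the Lefschetz hyperplane theorem). -/
structure IsSection {Z X : 𝒱.Obj} (f : Z ⟶ X) (D : C.A X) : Prop where
  dim : Z.dim + 1 = X.dim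
  push_one : ∃ a : ℚ, a ≠ 0 ∧ C.down f 1 = a • D
  onto : OntoBelow H f

/-- The class `x ∈ CH^i(X)` is the push-forward of a class on a smooth hypersurface section `Z` of `X`
for `D`, and the restriction of `D` to `Z` is again the class of an ample divisor. -/
def SectionThrough (Amp : ∀ X : 𝒱.Obj, C.A X → Prop) {X : 𝒱.Obj} (D : C.A X) (i : ℕ) (x : C.A X) :
    Prop :=
  ∃ (Z : 𝒱.Obj) (f : Z ⟶ X) (z : C.A Z), IsSection H f D ∧ Amp Z (C.up f D) ∧
    C.Deg ((i : ℤ) - 1) z ∧ C.down f z = x

/-- Smooth hypersurface sections through zero-cycles. `Amp X D` means that `D` is the class in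
`CH^1(X)` (rational coefficients) of an ample divisor on `X`. If `dim X ≥ 2` then each zero-cycle on
`X` lies on a smooth hypersurface section (the theorems of Bertini and Lefschetz). -/
def HasPointSections (Amp : ∀ X : 𝒱.Obj, C.A X → Prop) : Prop :=
  ∀ (X : 𝒱.Obj) (D : C.A X), Amp X D → 2 ≤ X.dim → ∀ x : C.A X, C.Deg X.dim x →
    SectionThrough H Amp D X.dim x

/-- Smooth hypersurface sections through cycles. `Amp X D` means that `D` is the class in `CH^1(X)`
(rational coefficients) of an ample divisor on `X`. If `dim X ≥ 2` then each cycle class of dimension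
less than `dim X / 2` is the push-forward of a class on a smooth hypersurface section. (Such classes
are, with rational coefficients, combinations of disjoint smooth subvarieties, by the theorem of
Kleiman, and smooth closed subschemes of dimension `< dim X / 2` are contained in smooth hypersurface
sections.) -/
def HasSections (Amp : ∀ X : 𝒱.Obj, C.A X → Prop) : Prop :=
  ∀ (X : 𝒱.Obj) (D : C.A X), Amp X D → 2 ≤ X.dim → ∀ (i : ℕ) (x : C.A X), C.Deg i x →
    X.dim < 2 * i → SectionThrough H Amp D i x

/-- `Composite H n X i x`: the class `x ∈ CH^i(X)` is obtained from a cycle class on some variety by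
applying successively `n` homologically trivial correspondences (through arbitrary varieties). -/
inductive Composite : ℕ → ∀ X : 𝒱.Obj, ℕ → C.A X → Prop
  | zero (X : 𝒱.Obj) (i : ℕ) (x : C.A X) (hx : C.Deg i x) : Composite 0 X i x
  | succ (n : ℕ) (Y X : 𝒱.Obj) (j i : ℕ) (y : C.A Y) (γ : C.A (Y.prod X))
      (hy : Composite n Y j y) (hγ : C.Deg (Y.dim + i - j) γ) (h0 : H.cl γ = 0) :
      Composite (n + 1) X i (C.act γ y)

/-- The subspace of `CH^i(X)` spanned by the classes obtained by applying successively `n`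
homologically trivial correspondences. -/
def compSpan (X : 𝒱.Obj) (i n : ℕ) : Submodule ℚ (C.A X) :=
  Submodule.span ℚ {x | Composite H n X i x}

/-- The class `x ∈ CH^i(X)` is mapped to zero by all correspondences from `X` to arbitrary varieties
`Y` with values in the Chow groups `CH^j(Y)` with `j < n`. -/
def Undetected (C : TheoryData.{u, v, 0} 𝒱 ℚ) (X : 𝒱.Obj) (i n : ℕ) (x : C.A X) : Prop :=
  C.Deg i x ∧ ∀ (j : ℕ) (Y : 𝒱.Obj) (γ : C.A (X.prod Y)), j < n → C.Deg (X.dim + j - i) γ →
    C.act γ x = 0

end Pool.Agent.U435.BB
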