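import Pool.Agent.U435.BB.Sec

/-!
# Filtrations with the properties 1 to 4
-/

set_option autoImplicit false

open CategoryTheory AlgebraicGeometry

universe u v w

namespace Pool.Agent.U435.BB

open Pool.Agent.H914 Pool.Agent.H914.VarClass Pool.Agent.H914.VarClass.Obj Pool.Agent.W492.BB
  Pool.Agent.W550.Corr Pool.Agent.TH133 Pool.Agent.Q73.LS

set_option linter.unusedSectionVars false
set_option linter.unusedTactic false

variable {k : Type u} [Field k] {𝒱 : VarClass k} {C : TheoryData.{u, v, 0} 𝒱 ℚ} {K : Type w}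
  [Field K]

/-- The steps of a filtration, for all integral codimensions. -/
def ext (F : ∀ X : 𝒱.Obj, ℕ → ℕ → Submodule ℚ (C.A X)) (X : 𝒱.Obj) (i : ℤ) (n : ℕ) :
    Submodule ℚ (C.A X) := if 0 ≤ i then F X i.toNat n else ⊥

lemma ext_nat (F : ∀ X : 𝒱.Obj, ℕ → ℕ → Submodule ℚ (C.A X)) (X : 𝒱.Obj) (i n : ℕ) :
    ext F X i n = F X i n := by
  simp [ext]

lemma ext_neg (F : ∀ X : 𝒱.Obj, ℕ → ℕ → Submodule ℚ (C.A X)) (X : 𝒱.Obj) {i : ℤ} (hi : i < 0)
    (n : ℕ) : ext F X i n = ⊥ := by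
  simp [ext, not_le.2 hi]

/-- A family of filtrations with integral codimensions which is stable under correspondences and
shifted by homologically trivial ones. -/
structure GoodFil (H : WeilTheoryData.{u, v, w} C K)
    (G : ∀ X : 𝒱.Obj, ℤ → ℕ → Submodule ℚ (C.A X)) : Prop where
  zero : ∀ (X : 𝒱.Obj) (i : ℤ) x, x ∈ G X i 0 ↔ x ∈ C.gr X i
  one : ∀ (X : 𝒱.Obj) (i : ℤ) x, x ∈ G X i 1 ↔ x ∈ C.gr X i ∧ H.cl x = 0
  anti : ∀ (X : 𝒱.Obj) (i : ℤ) n, G X i (n + 1) ≤ G X i n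
  stable : ∀ {X Y : 𝒱.Obj} {e : ℤ} {φ : C.A X → C.A Y} {ψ : H.A X → H.A Y},
    Realised H X Y e φ ψ → ∀ {i : ℤ} {n : ℕ} {x}, x ∈ G X i n → φ x ∈ G Y (i + e) n
  shift : ∀ {X Y : 𝒱.Obj} {e : ℤ} {φ : C.A X → C.A Y} {ψ : H.A X → H.A Y},
    Realised H X Y e φ ψ → (∀ a, ψ a = 0) → ∀ {i : ℤ} {n : ℕ} {x}, x ∈ G X i n →
      φ x ∈ G Y (i + e) (n + 1)

/-- The steps of high index vanish. -/
def Bdd (G : ∀ X : 𝒱.Obj, ℤ → ℕ → Submodule ℚ (C.A X)) : Prop :=
  ∀ (X : 𝒱.Obj) (i : ℤ) (n : ℕ) x, i < n → x ∈ G X i n → x = 0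

variable [hC : IsChowProj C] {H : WeilTheoryData.{u, v, w} C K} [hH : IsWeilProj H]
  {X Y Z W : 𝒱.Obj} {D : C.A X}

lemma GoodFil.anti' {G : ∀ X : 𝒱.Obj, ℤ → ℕ → Submodule ℚ (C.A X)} (hG : GoodFil H G)
    (X : 𝒱.Obj) (i : ℤ) {m n : ℕ} (h : m ≤ n) : G X i n ≤ G X i m := by
  induction n, h using Nat.le_induction with
  | base => exact le_refl _
  | succ n _ ih => exact (hG.anti X i n).trans ih

include hC hH

omit hC hH in
lemma exists_nat_of_nonneg {i : ℤ} (h : 0 ≤ i) : ∃ n : ℕ, i = n := ⟨i.toNat, by omega⟩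

omit hH in
/-- Correspondences in `F^m` map `F^n` to `F^(m+n)`. -/
lemma mul_push {F : Filtration C} (h34 : IsMultiplicative F) {e : ℤ}
    {Γ : C.A (X.prod Y)} (hΓ : Γ ∈ C.gr (X.prod Y) (X.dim + e)) {m : ℕ}
    (hm : ∀ c : ℕ, (c : ℤ) = X.dim + e → F.Mem c m Γ) {i : ℤ} {n : ℕ} {x : C.A X}
    (hx : x ∈ ext F.F X i n) (hgr : x ∈ C.gr X i) : C.act Γ x ∈ ext F.F Y (i + e) (m + n) := by
  rcases lt_or_ge i 0 with hi | hi
  · rw [ext_neg F.F X hi] at hx
    rw [(Submodule.mem_bot _).1 hx, C.act_map_zero]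
    exact Submodule.zero_mem _
  obtain ⟨i, rfl⟩ := exists_nat_of_nonneg hi
  rcases lt_or_ge ((i : ℤ) + e) 0 with hj | hj
  · have h := act_mem (e := e) hΓ hgr
    rw [C.gr_neg Y _ hj] at h
    rw [(Submodule.mem_bot _).1 h]
    exact Submodule.zero_mem _
  obtain ⟨j, hj⟩ := exists_nat_of_nonneg hj
  rw [hj, ext_nat]
  rw [ext_nat] at hx
  rcases lt_or_ge ((X.dim : ℤ) + e) 0 with hc | hc
  · rw [C.gr_neg _ _ hc] at hΓ
    rw [(Submodule.mem_bot _).1 hΓ, C.act_zero]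
    exact Submodule.zero_mem _
  obtain ⟨c, hc⟩ := exists_nat_of_nonneg hc
  have h1 := h34.mul (hm c hc.symm) (h34.pull (fst X Y) hx)
  exact h34.push (snd X Y) (by rw [dim_prod]; omega) h1

/-- A filtration with the properties 1 to 4 is good. -/
theorem good_of_filtration {F : Filtration C} (h12 : IsBounded H F) (h34 : IsMultiplicative F) :
    GoodFil H (ext F.F) ∧ Bdd (C := C) (ext F.F) := by
  have hzero : ∀ (X : 𝒱.Obj) (i : ℤ) x, x ∈ ext F.F X i 0 ↔ x ∈ C.gr X i := by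
    intro X i x
    rcases lt_or_ge i 0 with hi | hi
    · rw [ext_neg F.F X hi, C.gr_neg X i hi]
    · obtain ⟨i, rfl⟩ := exists_nat_of_nonneg hi
      rw [ext_nat]; exact h12.zero X i x
  have hanti : ∀ (X : 𝒱.Obj) (i : ℤ) n, ext F.F X i (n + 1) ≤ ext F.F X i n := by
    intro X i n
    rcases lt_or_ge i 0 with hi | hi
    · rw [ext_neg F.F X hi, ext_neg F.F X hi]
    · obtain ⟨i, rfl⟩ := exists_nat_of_nonneg hi
      rw [ext_nat, ext_nat]; exact F.anti X i n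
  have hgr : ∀ (X : 𝒱.Obj) (i : ℤ) n, ext F.F X i n ≤ C.gr X i := by
    intro X i n
    rcases lt_or_ge i 0 with hi | hi
    · rw [ext_neg F.F X hi]; exact bot_le
    · obtain ⟨i, rfl⟩ := exists_nat_of_nonneg hi
      rw [ext_nat]; exact F.le_gr X i n
  refine ⟨⟨hzero, ?_, hanti, ?_, ?_⟩, ?_⟩
  · intro X i x
    rcases lt_or_ge i 0 with hi | hi
    · rw [ext_neg F.F X hi, C.gr_neg X i hi, Submodule.mem_bot]
      constructor
      · rintro rfl; exact ⟨rfl, map_zero _⟩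
      · exact fun h => h.1
    · obtain ⟨i, rfl⟩ := exists_nat_of_nonneg hi
      rw [ext_nat]; exact h12.one X i x
  · rintro X Y e φ ψ ⟨Γ, hΓ, h1, h2⟩ i n x hx
    rw [← h1]
    have := mul_push h34 hΓ (m := 0) (fun c hc => (h12.zero _ _ _).2 (by
      rw [TheoryData.Deg, hc]; exact hΓ)) hx (hgr X i n hx)
    rwa [zero_add] at this
  · rintro X Y e φ ψ ⟨Γ, hΓ, h1, h2⟩ h0 i n x hx
    rw [← h1]
    have hcl : H.cl Γ = 0 := eq_zero_of_act H _ fun a => by rw [h2, h0]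
    have := mul_push h34 hΓ (m := 1) (fun c hc => (h12.one _ _ _).2 ⟨by
      rw [TheoryData.Deg, hc]; exact hΓ, hcl⟩) hx (hgr X i n hx)
    rwa [add_comm 1 n] at this
  · intro X i n x hin hx
    rcases lt_or_ge i 0 with hi | hi
    · rw [ext_neg F.F X hi] at hx
      exact (Submodule.mem_bot _).1 hx
    · obtain ⟨i, rfl⟩ := exists_nat_of_nonneg hi
      rw [ext_nat] at hx
      have hle : F.F X i n ≤ F.F X i (i + 1) := by
        have : ∀ m, i + 1 ≤ m → F.F X i m ≤ F.F X i (i + 1) := by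
          intro m hm
          induction m, hm using Nat.le_induction with
          | base => exact le_refl _
          | succ n _ ih => exact (F.anti X i n).trans ih
        exact this n (by omega)
      exact h12.top X i x (hle hx)

end Pool.Agent.U435.BB
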