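import Pool.Agent.U435.BB.Main1
import Pool.Agent.U435.BB.CKex

/-!
# Bloch-Beilinson filtrations on zero-cycles and composites: final statements
-/

set_option autoImplicit false

open CategoryTheory AlgebraicGeometry

universe u v w

namespace Pool.Agent.U435.BB

open Pool.Agent.H914 Pool.Agent.H914.VarClass Pool.Agent.H914.VarClass.Obj Pool.Agent.W492.BB
  Pool.Agent.W550.Corr Pool.Agent.TH133 Pool.Agent.Q73.LS

set_option linter.unusedSectionVars false
set_option linter.unusedTactic false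

variable {k : Type u} [Field k] {𝒱 : VarClass k} {C : TheoryData.{u, v, 0} 𝒱 ℚ} {K : Type w}
  [Field K] [hC : IsChowProj C] {H : WeilTheoryData.{u, v, w} C K} [hH : IsWeilProj H]
  {X Y Z W : 𝒱.Obj} {D : C.A X}

include hC hH

/-- Property 5 for zero-cycles and arbitrary correspondences. -/
theorem shift_zero {G : ∀ X : 𝒱.Obj, ℤ → ℕ → Submodule ℚ (C.A X)} (hG : GoodFil H G)
    (hb : Bdd (C := C) G) {Amp : ∀ X : 𝒱.Obj, C.A X → Prop} (hS : HasPointSections H Amp)
    (hA : Amp X D) (hB : LefschetzB H D) {n : ℕ} {x : C.A X} (hx : x ∈ G X X.dim n)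
    {e : ℤ} {φ : C.A X → C.A Y} {ψ : H.A X → H.A Y} (h : Realised H X Y e φ ψ)
    (h0 : ∀ a ∈ H.gr X (2 * X.dim - n), ψ a = 0) : φ x ∈ G Y (X.dim + e) (n + 1) :=
  sub_proj hG (exists_proj hB) (five_zero hG hb hS X.dim X D rfl hA hB n x hx) hx h h0

/-- The filtration on zero-cycles is detected by the correspondences to groups of lower
codimension. -/
theorem mem_iff_undetected {G : ∀ X : 𝒱.Obj, ℤ → ℕ → Submodule ℚ (C.A X)} (hG : GoodFil H G)
    (hb : Bdd (C := C) G) {Amp : ∀ X : 𝒱.Obj, C.A X → Prop} (hS : HasPointSections H Amp)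
    (hA : Amp X D) (hB : LefschetzB H D) (n : ℕ) (x : C.A X) :
    x ∈ G X X.dim n ↔ Undetected C X X.dim n x := by
  constructor
  · intro hx
    refine ⟨(hG.zero X _ x).1 (hG.anti' X _ (Nat.zero_le n) hx), fun j Y γ hj hγ => ?_⟩
    have hγ' : γ ∈ C.gr (X.prod Y) ((X.dim : ℤ) + (j - X.dim)) := by
      rw [show (X.dim : ℤ) + (j - X.dim) = X.dim + j - X.dim by ring]; exact hγ
    have h1 := hG.stable (Realised.of (H := H) hγ') hx
    exact hb Y _ n _ (by omega) h1
  · rintro ⟨hx, h⟩
    have key : ∀ a : ℕ, a ≤ n → x ∈ G X X.dim a := by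
      intro a
      induction a with
      | zero => intro _; exact (hG.zero X _ x).2 hx
      | succ a iha =>
        intro ha
        have hxa := iha (by omega)
        rcases Nat.lt_or_ge X.dim a with h1 | h1
        · rw [hb X _ a x (by exact_mod_cast h1) hxa]
          exact Submodule.zero_mem _
        obtain ⟨θ, τ, hr, -, h2⟩ := lefInv hB h1
        have hL := rpow (H := H) hB.deg (X.dim - a)
        have h3 : Realised H X X 0 (fun x => x - D ^ (X.dim - a) * θ x)
            (fun b => b - H.cl D ^ (X.dim - a) * τ b) :=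
          (Realised.id X).sub ((hr.comp hL).congr (by omega) (fun _ => rfl) (fun _ => rfl))
        have h4 := shift_zero hG hb hS hA hB hxa h3 (fun b hb' => by rw [h2 b hb', sub_self])
        obtain ⟨Γ, hΓ, h5, -⟩ := hr
        have h6 : θ x = 0 := by
          rw [← h5]
          refine h a X Γ (by omega) ?_
          rw [TheoryData.Deg, show (X.dim : ℤ) + a - X.dim = X.dim + (a - X.dim) by ring]
          exact hΓ
        rw [h6, mul_zero, sub_zero, add_zero] at h4
        exact h4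
    exact key n (le_refl _)

/-- In codimension at most one and above the dimension there is nothing to prove. -/
theorem eq_comp_low {F : Filtration C} (h12 : IsBounded H F) (h34 : IsMultiplicative F)
    (X : 𝒱.Obj) {i : ℕ} (hi : i ≤ 1 ∨ X.dim < i) (n : ℕ) : F.F X i n = compSpan H X i n := by
  obtain ⟨hG, hb⟩ := good_of_filtration h12 h34
  rw [← ext_nat F.F, ← ext_nat (compSpan H)]
  refine le_antisymm (fun x hx => ?_) (P_le hG X _ n)
  rcases hi with hi | hi
  · rcases Nat.eq_zero_or_pos n with rfl | hn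
    · exact (P_zero X _ x).2 ((hG.zero X _ x).1 hx)
    · rcases Nat.lt_or_ge i n with h | h
      · rw [hb X _ n x (by exact_mod_cast h) hx]
        exact Submodule.zero_mem _
      · have : n = 1 := by omega
        subst this
        have h2 := (hG.one X _ x).1 hx
        exact P_one h2.1 h2.2
  · rw [hC.gr_top X i x ((hG.zero X _ x).1 (hG.anti' X _ (Nat.zero_le n) hx))
      (by exact_mod_cast hi)]
    exact Submodule.zero_mem _

/-- **Filtrations with the properties 1 to 4 on zero-cycles.** -/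
theorem zero_cycles {Amp : ∀ X : 𝒱.Obj, C.A X → Prop} (hS : HasPointSections H Amp)
    (F : Filtration C) (h12 : IsBounded H F) (h34 : IsMultiplicative F) (X : 𝒱.Obj) (D : C.A X)
    (hA : Amp X D) (hB : LefschetzB H D) :
    (∃ π, IsCK H X π) ∧ (∀ π, IsCK H X π → ∀ n, F.F X X.dim n = ckFil C π X.dim n) ∧
    (∀ n x, F.Mem X.dim n x ↔ Undetected C X X.dim n x) ∧
    (∀ i n, (i ≤ 1 ∨ X.dim ≤ i) → F.F X i n = compSpan H X i n) ∧
    ∀ (Y : 𝒱.Obj) (j n : ℕ) (Γ : C.A (X.prod Y)), C.Deg j Γ → Kills H Γ (2 * X.dim - n) →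
      ∀ x, F.Mem X.dim n x → F.Mem j (n + 1) (C.act Γ x) := by
  obtain ⟨hG, hb⟩ := good_of_filtration h12 h34
  refine ⟨exists_isCK hG hb (exists_proj hB), fun π hπ n => ?_, fun n x => ?_,
    fun i n hi => ?_, ?_⟩
  · rw [← ext_nat F.F]
    exact eq_ckFil_zero hG hb hS hA hB hπ n
  · change x ∈ F.F X X.dim n ↔ _
    rw [← ext_nat F.F]
    exact mem_iff_undetected hG hb hS hA hB n x
  · rcases hi with hi | hi
    · exact eq_comp_low h12 h34 X (Or.inl hi) n
    rcases Nat.lt_or_eq_of_le hi with hi | rfl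
    · exact eq_comp_low h12 h34 X (Or.inr hi) n
    rw [← ext_nat F.F, ← ext_nat (compSpan H)]
    exact le_antisymm (le_comp_zero hG hb hS X.dim X D rfl hA hB n) (P_le hG X _ n)
  · intro Y j n Γ hΓ hk x hx
    change x ∈ F.F X X.dim n at hx
    change C.act Γ x ∈ F.F Y j (n + 1)
    rw [← ext_nat F.F] at hx ⊢
    have hΓ' : Γ ∈ C.gr (X.prod Y) ((X.dim : ℤ) + (j - X.dim)) := by
      rw [show (X.dim : ℤ) + (j - X.dim) = j by ring]; exact hΓ
    have h1 := shift_zero hG hb hS hA hB hx (Realised.of (H := H) hΓ') hk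
    rwa [show (X.dim : ℤ) + (j - X.dim) = j by ring] at h1

/-- `B` implies the Kunneth standard conjecture. -/
lemma kunneth_of_lefschetz (hL : ∀ X : 𝒱.Obj, ∃ D : C.A X, LefschetzB H D) :
    KunnethConjecture H := by
  intro X m
  obtain ⟨D, hB⟩ := hL X
  obtain ⟨φ, ψ, ⟨Γ, hΓ, h1, h2⟩, h3, h4⟩ := exists_proj hB (m : ℤ)
  refine ⟨Γ, ?_, fun l a ha => ?_⟩
  · rwa [add_zero] at hΓ
  · rw [h2]
    split_ifs with h
    · subst h; exact h3 a ha
    · exact h4 l h a ha

lemma proj_of_kunneth (hK : KunnethConjecture H) (X : 𝒱.Obj) (j : ℤ) :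
    ∃ φ ψ, IsProj H X j φ ψ := by
  rcases lt_or_ge j 0 with hj | hj
  · exact ⟨_, _, rzero X X 0, fun a ha => (H_neg hj ha).symm, fun _ _ _ _ => rfl⟩
  · obtain ⟨m, rfl⟩ := exists_nat_of_nonneg hj
    obtain ⟨Γ, hΓ, h⟩ := hK X m
    have hΓ' : Γ ∈ C.gr (X.prod X) ((X.dim : ℤ) + 0) := by rw [add_zero]; exact hΓ
    refine ⟨_, _, Realised.of hΓ', fun a ha => ?_, fun l hl a ha => ?_⟩
    · rw [h m a ha, if_pos rfl]
    · rw [h l a ha, if_neg hl]

/-- Property 5 for arbitrary correspondences. -/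
lemma motivic_of_isBB {F : Filtration C} (hF : IsBB H F) (hK : KunnethConjecture H) :
    Motivic H (ext F.F) := by
  obtain ⟨hG, hb⟩ := good_of_filtration hF.bounded hF.multiplicative
  intro X Y e φ ψ hr i n x hx h0
  rcases lt_or_ge i 0 with hi | hi
  · rw [ext_neg F.F X hi] at hx
    rw [(Submodule.mem_bot _).1 hx, (rlin hr).2.2.1]
    exact Submodule.zero_mem _
  obtain ⟨i, rfl⟩ := exists_nat_of_nonneg hi
  refine sub_proj hG (proj_of_kunneth hK X) (fun j hj φ' ψ' hp => ?_) hx hr h0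
  rw [ext_nat] at hx ⊢
  obtain ⟨Γ, hΓ, h1, h2⟩ := hp.real
  rw [add_zero] at hΓ
  rw [← h1]
  refine hF.motivic hK X i n Γ hΓ (fun a ha => ?_) x hx
  rw [h2]
  exact hp.ne _ (Ne.symm hj) a ha

/-- **Bloch-Beilinson filtrations are generated by composites.** -/
theorem eq_composites_at {Amp : ∀ X : 𝒱.Obj, C.A X → Prop} (hS : HasSections H Amp)
    (F : Filtration C) (hF : IsBB H F) (hK : KunnethConjecture H) (X : 𝒱.Obj) (D : C.A X)
    (hA : Amp X D) (hB : LefschetzB H D) (i n : ℕ) : F.F X i n = (composites H).F X i n := by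
  obtain ⟨hG, hb⟩ := good_of_filtration hF.bounded hF.multiplicative
  have hM : Motivic H (ext F.F) := @motivic_of_isBB _ _ _ _ _ _ _ H _ F hF hK
  change F.F X i n = compSpan H X i n
  rw [← ext_nat F.F, ← ext_nat (compSpan H)]
  exact eq_P hG hb hM hS hA hB i n

theorem eq_composites {Amp : ∀ X : 𝒱.Obj, C.A X → Prop} (hS : HasSections H Amp)
    (hL : ∀ X : 𝒱.Obj, ∃ D : C.A X, Amp X D ∧ LefschetzB H D) (F : Filtration C)
    (hF : IsBB H F) : F = composites H := by
  have h : F.F = (composites H).F := by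
    funext X i n
    obtain ⟨D, hA, hB⟩ := hL X
    exact eq_composites_at hS F hF (kunneth_of_lefschetz fun X => let ⟨D, h⟩ := hL X; ⟨D, h.2⟩) X D
      hA hB i n
  cases F
  change Filtration.mk _ _ _ = Filtration.mk _ _ _
  congr

/-- The criterion for the existence. -/
theorem exists_isBB_iff {Amp : ∀ X : 𝒱.Obj, C.A X → Prop} (hS : HasSections H Amp)
    (hL : ∀ X : 𝒱.Obj, ∃ D : C.A X, Amp X D ∧ LefschetzB H D) :
    (∃ F : Filtration C, IsBB H F) ↔
      (∀ (X : 𝒱.Obj) (i : ℕ) (x : C.A X), Composite H (i + 1) X i x → x = 0) ∧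
        IsMotivic H (composites H) := by
  constructor
  · rintro ⟨F, hF⟩
    have h := eq_composites hS hL F hF
    rw [h] at hF
    exact ⟨fun X i x hx => hF.bounded.top X i x (Submodule.subset_span hx), hF.motivic⟩
  · rintro ⟨h1, h2⟩
    refine ⟨composites H, ⟨composites_zero, composites_one, fun X i x hx => ?_⟩,
      composites_multiplicative, h2⟩
    have hle : compSpan H X i (i + 1) ≤ ⊥ := by
      refine Submodule.span_le.2 fun y hy => ?_
      rw [h1 X i y hy]
      exact Submodule.zero_mem _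
    exact (Submodule.mem_bot _).1 (hle hx)

end Pool.Agent.U435.BB
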