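import Pool.Agent.U435.BB.Basic

/-!
# The standard conjecture B: Kunneth projectors, hypersurface sections
-/

set_option autoImplicit false

open CategoryTheory AlgebraicGeometry

universe u v w

namespace Pool.Agent.U435.BB

open Pool.Agent.H914 Pool.Agent.H914.VarClass Pool.Agent.H914.VarClass.Obj Pool.Agent.W492.BB
  Pool.Agent.W550.Corr Pool.Agent.TH133 Pool.Agent.Q73.LS

set_option linter.unusedSectionVars false
set_option linter.unusedTactic false

variable {k : Type u} [Field k] {𝒱 : VarClass k} {C : TheoryData.{u, v, 0} 𝒱 ℚ} {K : Type w}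
  [Field K] [hC : IsChowProj C] {H : WeilTheoryData.{u, v, w} C K} [hH : IsWeilProj H]
  {X Y Z W : 𝒱.Obj} {D : C.A X}

include hC hH

omit hH in
lemma pow_mem' (hD : D ∈ C.gr X 1) (n : ℕ) : D ^ n ∈ C.gr X n := by
  induction n with
  | zero => simpa using C.one_mem X
  | succ n ih =>
    rw [pow_succ]
    have := C.mul_mem ih hD
    exact_mod_cast this

lemma rpow (hD : D ∈ C.gr X 1) (n : ℕ) :
    Realised H X X n (fun x => D ^ n * x) (fun a => H.cl D ^ n * a) :=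
  (Realised.mul (pow_mem' hD n)).congr rfl (fun _ => rfl) (fun a => by rw [map_pow])

/-- The inverse of the Lefschetz isomorphism as an operator. -/
lemma lefInv (hB : LefschetzB H D) {l : ℕ} (hl : l ≤ X.dim) :
    ∃ φ ψ, Realised H X X ((l : ℤ) - X.dim) φ ψ ∧
      (∀ a ∈ H.gr X l, ψ (H.cl D ^ (X.dim - l) * a) = a) ∧
      ∀ b ∈ H.gr X (2 * X.dim - l), H.cl D ^ (X.dim - l) * ψ b = b := by
  obtain ⟨θ, hθ, h1, h2⟩ := hB.inverse l hl
  have hθ' : θ ∈ C.gr (X.prod X) ((X.dim : ℤ) + ((l : ℤ) - X.dim)) := by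
    rw [show (X.dim : ℤ) + ((l : ℤ) - X.dim) = l by ring]; exact hθ
  exact ⟨_, _, Realised.of hθ', h1, h2⟩

lemma lefB_of (hD : D ∈ C.gr X 1) (h : ∀ l : ℕ, l ≤ X.dim →
    ∃ φ ψ, Realised H X X ((l : ℤ) - X.dim) φ ψ ∧
      (∀ a ∈ H.gr X l, ψ (H.cl D ^ (X.dim - l) * a) = a) ∧
      ∀ b ∈ H.gr X (2 * X.dim - l), H.cl D ^ (X.dim - l) * ψ b = b) : LefschetzB H D where
  deg := hD
  inverse := by
    intro l hl
    obtain ⟨φ, ψ, ⟨Γ, hΓ, h1, h2⟩, h3, h4⟩ := h l hl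
    refine ⟨Γ, ?_, fun a ha => ?_, fun b hb => ?_⟩
    · rw [show (X.dim : ℤ) + ((l : ℤ) - X.dim) = l by ring] at hΓ
      exact hΓ
    · rw [h2]; exact h3 a ha
    · rw [h2]; exact h4 b hb

section scal

lemma scal_inv {a : ℚ} (ha : a ≠ 0) (X : 𝒱.Obj) :
    H.cl (algebraMap ℚ (C.A X) a⁻¹) * H.cl (algebraMap ℚ (C.A X) a) = 1 := by
  rw [← map_mul, ← map_mul, inv_mul_cancel₀ ha, map_one, map_one]

/-- `B(X)` for a nonzero multiple of the divisor class. -/
lemma lefB_smul (hB : LefschetzB H D) {a : ℚ} (ha : a ≠ 0) : LefschetzB H (a • D) := by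
  have hD : D ∈ C.gr X 1 := hB.deg
  refine lefB_of (Submodule.smul_mem _ a hD) fun l hl => ?_
  obtain ⟨φ, ψ, hr, h1, h2⟩ := lefInv hB hl
  have e1 : H.cl (a • D) ^ (X.dim - l) =
      H.cl (algebraMap ℚ (C.A X) (a ^ (X.dim - l))) * H.cl D ^ (X.dim - l) := by
    rw [← map_pow, ← map_pow, smul_pow, cl_algebraMap]
  have hne : a ^ (X.dim - l) ≠ 0 := pow_ne_zero _ ha
  set q := a ^ (X.dim - l) with hq
  have hcomm : ∀ b : H.A X, H.cl (algebraMap ℚ (C.A X) q) * b = b * H.cl (algebraMap ℚ (C.A X) q) :=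
    fun b => H.cl_central _ b
  have hcomm' : ∀ b : H.A X, H.cl (algebraMap ℚ (C.A X) q⁻¹) * b =
    b * H.cl (algebraMap ℚ (C.A X) q⁻¹) := fun b => H.cl_central _ b
  -- the operator `ψ` commutes with scalars
  have hlin : ∀ (r : ℚ) (b : H.A X), ψ (H.cl (algebraMap ℚ (C.A X) r) * b) =
      H.cl (algebraMap ℚ (C.A X) r) * ψ b := by
    intro r b
    have hr0 : algebraMap ℚ (C.A X) r ∈ C.gr X 0 := by
      rw [Algebra.algebraMap_eq_smul_one]
      exact Submodule.smul_mem _ _ (C.one_mem X)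
    obtain ⟨Γ, hΓ, h3, h4⟩ := hr
    rw [← h4, ← h4, TheoryData.act_apply, TheoryData.act_apply, map_mul (H.pull (fst X X)),
      ← H.cl_pull, AlgHom.commutes]
    rw [← mul_assoc, ← H.cl_central, mul_assoc]
    have e2 : algebraMap ℚ (C.A (X.prod X)) r = C.pull (snd X X) (algebraMap ℚ (C.A X) r) := by
      rw [AlgHom.commutes]
    rw [e2, H.cl_pull, H.proj_left]
  refine ⟨_, _, rsmul q⁻¹ hr, fun b hb => ?_, fun b hb => ?_⟩
  · rw [e1, mul_assoc, hlin, ← mul_assoc, scal_inv hne, one_mul, h1 b hb]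
  · rw [e1, mul_assoc, ← mul_assoc (H.cl D ^ (X.dim - l)), ← hcomm', mul_assoc, h2 b hb,
      ← mul_assoc, hcomm, scal_inv hne, one_mul]

end scal

section kunneth

/-- Cutting off the cohomology outside the degrees from `l` to `2 dim X - l`. -/
def IsCut (H : WeilTheoryData.{u, v, w} C K) (X : 𝒱.Obj) (l : ℕ) (φ : C.A X → C.A X)
    (ψ : H.A X → H.A X) : Prop :=
  Realised H X X 0 φ ψ ∧ (∀ m : ℤ, l ≤ m → m ≤ 2 * X.dim - l → ∀ a ∈ H.gr X m, ψ a = a) ∧
    ∀ m : ℤ, (m < l ∨ 2 * X.dim - l < m) → ∀ a ∈ H.gr X m, ψ a = 0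

lemma proj_low (hB : LefschetzB H D) {l : ℕ} (hl : l ≤ X.dim) {φ : C.A X → C.A X}
    {ψ : H.A X → H.A X} (hE : IsCut H X l φ ψ) : ∃ φ' ψ', IsProj H X l φ' ψ' := by
  obtain ⟨θ, τ, hr, h1, -⟩ := lefInv hB hl
  obtain ⟨hE0, hE1, hE2⟩ := hE
  have hL := rpow (H := H) hB.deg (X.dim - l)
  refine ⟨_, _, ((((hE0.comp hL).comp hE0).comp hr).congr ?_ (fun _ => rfl) (fun _ => rfl)),
    fun a ha => ?_, fun m hm a ha => ?_⟩
  · push_cast [Nat.cast_sub hl]; ring
  · have h2 : H.cl D ^ (X.dim - l) * a ∈ H.gr X (2 * X.dim - l) := by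
      have := rmemH hL ha
      rwa [show (l : ℤ) + 2 * ((X.dim - l : ℕ) : ℤ) = 2 * X.dim - l by
        push_cast [Nat.cast_sub hl]; ring] at this
    change τ (ψ (H.cl D ^ (X.dim - l) * ψ a)) = a
    rw [hE1 l (le_refl _) (by omega) a ha, hE1 _ (by omega) (le_refl _) _ h2, h1 a ha]
  · change τ (ψ (H.cl D ^ (X.dim - l) * ψ a)) = 0
    by_cases hm' : m < l ∨ 2 * (X.dim : ℤ) - l < m
    · rw [hE2 m hm' a ha, mul_zero, (rlin hE0).2.2.2.2.2.1, (rlin hr).2.2.2.2.2.1]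
    · rw [not_or, not_lt, not_lt] at hm'
      have h2 : H.cl D ^ (X.dim - l) * a ∈ H.gr X (m + 2 * (X.dim - l)) := by
        have := rmemH hL ha
        rwa [show m + 2 * ((X.dim - l : ℕ) : ℤ) = m + 2 * (X.dim - l) by
          push_cast [Nat.cast_sub hl]; ring] at this
      rw [hE1 m hm'.1 hm'.2 a ha, hE2 _ (Or.inr (by omega)) _ h2, (rlin hr).2.2.2.2.2.1]

lemma proj_high (hB : LefschetzB H D) {l : ℕ} (hl : l ≤ X.dim) {φ : C.A X → C.A X}
    {ψ : H.A X → H.A X} (hE : IsProj H X l φ ψ) :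
    ∃ φ' ψ', IsProj H X (2 * X.dim - l) φ' ψ' := by
  obtain ⟨θ, τ, hr, -, h1⟩ := lefInv hB hl
  have hL := rpow (H := H) hB.deg (X.dim - l)
  refine ⟨_, _, (((hr.comp hE.real).comp hL).congr ?_ (fun _ => rfl) (fun _ => rfl)),
    fun a ha => ?_, fun m hm a ha => ?_⟩
  · push_cast [Nat.cast_sub hl]; ring
  · change H.cl D ^ (X.dim - l) * ψ (τ a) = a
    have h2 : τ a ∈ H.gr X l := by
      have := rmemH hr ha
      rwa [show 2 * (X.dim : ℤ) - l + 2 * (l - X.dim) = l by ring] at this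
    rw [hE.self _ h2, h1 a ha]
  · change H.cl D ^ (X.dim - l) * ψ (τ a) = 0
    rw [hE.ne _ (by omega) _ (rmemH hr ha), mul_zero]

lemma cut (hB : LefschetzB H D) : ∀ l : ℕ, l ≤ X.dim → ∃ φ ψ, IsCut H X l φ ψ := by
  intro l
  induction l with
  | zero =>
    intro _
    refine ⟨_, _, Realised.id X, fun m _ _ a _ => rfl, fun m hm a ha => ?_⟩
    rcases hm with hm | hm
    · exact H_neg (by exact_mod_cast hm) ha
    · exact H_top (by push_cast at hm; linarith) ha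
  | succ l ih =>
    intro hl
    obtain ⟨φ, ψ, hE⟩ := ih (by omega)
    obtain ⟨φ₁, ψ₁, h1⟩ := proj_low hB (by omega) hE
    obtain ⟨φ₂, ψ₂, h2⟩ := proj_high hB (by omega) h1
    refine ⟨_, _, (hE.1.sub h1.real).sub h2.real, fun m hm hm' a ha => ?_, fun m hm a ha => ?_⟩
    · change ψ a - ψ₁ a - ψ₂ a = a
      push_cast at hm hm'
      rw [hE.2.1 m (by omega) (by omega) a ha, h1.ne m (by omega) a ha, h2.ne m (by omega) a ha,
        sub_zero, sub_zero]
    · change ψ a - ψ₁ a - ψ₂ a = 0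
      push_cast at hm
      by_cases h3 : m = l
      · subst h3
        rw [hE.2.1 _ (by omega) (by omega) a ha, h1.self a ha, h2.ne _ (by omega) a ha, sub_self,
          sub_zero]
      · by_cases h4 : m = 2 * X.dim - l
        · subst h4
          rw [hE.2.1 _ (by omega) (by omega) a ha, h1.ne _ (by omega) a ha, h2.self a ha, sub_zero,
            sub_self]
        · rw [hE.2.2 m (by omega) a ha, h1.ne m h3 a ha, h2.ne m h4 a ha, sub_zero, sub_zero]

/-- `B(X)` implies the existence of algebraic Kunneth projectors. -/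
theorem exists_proj (hB : LefschetzB H D) (j : ℤ) : ∃ φ ψ, IsProj H X j φ ψ := by
  rcases two_cases j X.dim with hj | hj | ⟨i, hi, rfl⟩
  · exact ⟨_, _, rzero X X 0, fun a ha => (H_neg hj ha).symm, fun _ _ _ _ => rfl⟩
  · exact ⟨_, _, rzero X X 0, fun a ha => (H_top hj ha).symm, fun _ _ _ _ => rfl⟩
  · rcases le_or_gt i X.dim with h | h
    · obtain ⟨φ, ψ, hE⟩ := cut hB i h
      exact proj_low hB h hE
    · obtain ⟨φ, ψ, hE⟩ := cut hB (2 * X.dim - i) (by omega)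
      obtain ⟨φ₁, ψ₁, h1⟩ := proj_low hB (by omega) hE
      obtain ⟨φ₂, ψ₂, h2⟩ := proj_high hB (by omega) h1
      refine ⟨φ₂, ψ₂, ?_⟩
      rwa [show 2 * (X.dim : ℤ) - ((2 * X.dim - i : ℕ) : ℤ) = i by omega] at h2

end kunneth

end Pool.Agent.U435.BB
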