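import Pool.Agent.U435.BB.Comp

/-!
# Filtrations with the properties 1 to 4 on zero-cycles: composites
-/

set_option autoImplicit false

open CategoryTheory AlgebraicGeometry

universe u v w

namespace Pool.Agent.U435.BB

open Pool.Agent.H914 Pool.Agent.H914.VarClass Pool.Agent.H914.VarClass.Obj Pool.Agent.W492.BB
  Pool.Agent.W550.Corr Pool.Agent.TH133 Pool.Agent.Q73.LS

set_option linter.unusedSectionVars false
set_option linter.unusedTactic false

variable {k : Type u} [Field k] {𝒱 : VarClass k} {C : TheoryData.{u, v, 0} 𝒱 ℚ} {K : Type w}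
  [Field K] [hC : IsChowProj C] {H : WeilTheoryData.{u, v, w} C K} [hH : IsWeilProj H]
  {X Y Z W : 𝒱.Obj} {D : C.A X}

include hC hH

/-- Descending induction. -/
lemma le_P_of_step {G : ∀ X : 𝒱.Obj, ℤ → ℕ → Submodule ℚ (C.A X)} (hb : Bdd (C := C) G)
    (X : 𝒱.Obj) (i : ℤ) (N : ℕ) (hN : i < N)
    (h : ∀ n x, x ∈ G X i n → x ∈ P H X i n ⊔ G X i (n + 1)) (n : ℕ) :
    G X i n ≤ P H X i n := by
  have key : ∀ m n : ℕ, N ≤ n + m → G X i n ≤ P H X i n := by
    intro m
    induction m with
    | zero =>
      intro n hn x hx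
      rw [hb X i n x (by omega) hx]
      exact Submodule.zero_mem _
    | succ m ih =>
      intro n hn x hx
      obtain ⟨y, hy, z, hz, rfl⟩ := Submodule.mem_sup.1 (h n x hx)
      exact Submodule.add_mem _ hy (P_anti X i n (ih (n + 1) (by omega) hz))
  exact key N n (by omega)

/-- **On zero-cycles the filtration is the filtration by composites.** -/
theorem le_comp_zero {G : ∀ X : 𝒱.Obj, ℤ → ℕ → Submodule ℚ (C.A X)} (hG : GoodFil H G)
    (hb : Bdd (C := C) G) {Amp : ∀ X : 𝒱.Obj, C.A X → Prop} (hS : HasPointSections H Amp) :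
    ∀ (d : ℕ) (X : 𝒱.Obj) (D : C.A X), X.dim = d → Amp X D → LefschetzB H D →
      ∀ n : ℕ, G X d n ≤ P H X d n := by
  intro d
  induction d with
  | zero =>
    intro X D hd hA hB n
    refine le_P_of_step hb X _ 1 (by norm_num) (fun n x hx => ?_) n
    rcases Nat.eq_zero_or_pos n with rfl | hn
    · exact Submodule.mem_sup_left ((P_zero X _ x).2 ((hG.zero X _ x).1 hx))
    · rw [hb X _ n x (by exact_mod_cast hn) hx]
      exact Submodule.zero_mem _
  | succ d ih =>
    intro X D hd hA hB n
    refine le_P_of_step hb X _ (d + 2) (by push_cast; omega) (fun n x hx => ?_) n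
    have hPX : ∀ j : ℤ, ∃ φ ψ, IsProj H X j φ ψ := exists_proj hB
    have h5X := five_zero hG hb hS (d + 1) X D hd hA hB
    rcases Nat.eq_zero_or_pos n with rfl | hn
    · exact Submodule.mem_sup_left ((P_zero X _ x).2 ((hG.zero X _ x).1 hx))
    rcases Nat.lt_or_ge (d + 1) n with h1 | h1
    · rw [hb X _ n x (by exact_mod_cast h1) hx]
      exact Submodule.zero_mem _
    rcases Nat.eq_zero_or_pos d with rfl | hdpos
    · -- curves
      have : n = 1 := by omega
      subst this
      have h2 := (hG.one X _ x).1 hx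
      exact Submodule.mem_sup_left (P_one h2.1 h2.2)
    have hd2 : 2 ≤ X.dim := by omega
    rcases Nat.lt_or_ge n (d + 1) with h2 | h2
    · -- `n < dim X`
      obtain ⟨Z, f, z, hZ, hf, hBf, hAZ, hBZ, hz, hfz⟩ := exists_section (hS X D hA hd2 0
        (Submodule.zero_mem _)) hB
      have hpf : Realised H Z X 1 (C.push f) (H.push f) :=
        (Realised.push f).congr (by omega) (fun _ => rfl) (fun _ => rfl)
      obtain ⟨μ, ν, hr, h3⟩ := lefRight hBf (show n + 1 ≤ X.dim by omega)
      have h4 : Realised H X X 0 (fun x => x - C.push f (C.pull f (μ x)))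
          (fun a => a - H.push f (H.pull f (ν a))) :=
        (Realised.id X).sub (((hr.comp (Realised.pull f)).comp hpf).congr (by ring)
          (fun _ => rfl) (fun _ => rfl))
      have h5 := sub_proj hG hPX (h5X n x hx) hx h4 (fun a ha => by
        have ha' : a ∈ H.gr X (2 * X.dim - n) := by rw [hd]; exact ha
        rw [push_pull_H, h3 a ha', sub_self])
      rw [add_zero] at h5
      have h6 := hG.stable (hr.comp (Realised.pull f)) hx
      rw [show ((d + 1 : ℕ) : ℤ) + (-1 + 0) = d by push_cast; ring] at h6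
      have h7 := P_stable hpf (ih Z (C.pull f D) (by omega) hAZ hBZ n h6)
      rw [show (d : ℤ) + 1 = ((d + 1 : ℕ) : ℤ) by push_cast; ring] at h7
      have h8 := Submodule.add_mem_sup h7 h5
      rwa [add_sub_cancel] at h8
    · -- `n = dim X`
      have hnd : n = d + 1 := by omega
      subst hnd
      obtain ⟨Z, f, z, hZ, hf, hBf, hAZ, hBZ, hz, hfz⟩ := exists_section (hS X D hA hd2 x (by
        rw [hd]; exact (hG.zero X _ _).1 (hG.anti' X _ (Nat.zero_le _) hx))) hB
      have hZd : Z.dim = d := by omega
      have hpf : Realised H Z X 1 (C.push f) (H.push f) :=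
        (Realised.push f).congr (by omega) (fun _ => rfl) (fun _ => rfl)
      have hzd : z ∈ C.gr Z d := by
        have e : ((X.dim : ℤ) - 1) = d := by omega
        rwa [e] at hz
      have hPZ : ∀ j : ℤ, ∃ φ ψ, IsProj H Z j φ ψ := exists_proj hBZ
      have h5Z := five_zero hG hb hS d Z (C.pull f D) hZd hAZ hBZ
      have key : ∀ a : ℕ, a ≤ d → z ∈ G Z d a := by
        intro a
        induction a with
        | zero => intro _; exact (hG.zero Z _ z).2 hzd
        | succ a iha =>
          intro ha
          have hza := iha (by omega)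
          obtain ⟨γ, ρ, hr, h3⟩ := secInv hZ hf hBf (show a < Z.dim by omega)
          have h4 : Realised H Z Z 0 (fun x => x - γ (C.push f x))
              (fun b => b - ρ (H.push f b)) :=
            (Realised.id Z).sub ((hpf.comp hr).congr (by ring) (fun _ => rfl) (fun _ => rfl))
          have h5 := sub_proj hG hPZ (h5Z a z hza) hza h4 (fun b hb' => by
            have hb' : b ∈ H.gr Z (2 * Z.dim - a) := by rw [hZd]; exact hb'
            rw [h3 b hb', sub_self])
          rw [add_zero, hfz] at h5
          have h9 := hG.stable hr (hG.anti' X _ (show a + 1 ≤ d + 1 by omega) hx)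
          rw [show ((d + 1 : ℕ) : ℤ) + -1 = d by push_cast; ring] at h9
          have := Submodule.add_mem _ h5 h9
          rwa [sub_add_cancel] at this
      have hzn := ih Z (C.pull f D) hZd hAZ hBZ d (key d (le_refl _))
      obtain ⟨φ, ψ, hp⟩ := hPX (2 * (d + 1 : ℕ) - (d + 1 : ℕ))
      obtain ⟨φ', ψ', hp'⟩ := hPZ d
      -- `z = φ' z`
      have h6 : z - φ' z = 0 := by
        have h7 := sub_proj hG hPZ (h5Z d z (key d (le_refl _))) (key d (le_refl _))
          ((Realised.id Z).sub hp'.real) (fun b hb' => by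
            rw [hp'.self b (by rwa [show 2 * (d : ℤ) - d = d by ring] at hb'), sub_self])
        exact hb Z _ _ _ (by push_cast; omega) h7
      -- `x = φ x`
      have h7 : x - φ x = 0 := by
        have h8 := sub_proj hG hPX (h5X (d + 1) x hx) hx
          ((Realised.id X).sub hp.real) (fun b hb' => by rw [hp.self b hb', sub_self])
        exact hb X _ _ _ (by push_cast; omega) h8
      have h8 : Realised H Z X 1 (fun z => φ (C.push f (φ' z))) (fun a => ψ (H.push f (ψ' a))) :=
        ((hp'.real.comp hpf).comp hp.real).congr (by ring) (fun _ => rfl) (fun _ => rfl)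
      have h9 : ∀ a, ψ (H.push f (ψ' a)) = 0 := by
        apply rext h8
        intro m a ha
        by_cases hm : m = d
        · subst hm
          rw [hp'.self a ha]
          have := rmemH hpf ha
          exact hp.ne _ (by push_cast; omega) _ this
        · rw [hp'.ne m hm a ha, map_zero, (rlin hp.real).2.2.2.2.2.1]
      have h10 := P_shift h8 h9 hzn
      change φ (C.push f (φ' z)) ∈ _ at h10
      rw [← sub_eq_zero.1 h6, hfz, ← sub_eq_zero.1 h7,
        show (d : ℤ) + 1 = ((d + 1 : ℕ) : ℤ) by push_cast; ring] at h10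
      exact Submodule.mem_sup_left h10

/-- The filtration on zero-cycles is the one attached to any Chow-Kunneth decomposition. -/
theorem eq_ckFil_zero {G : ∀ X : 𝒱.Obj, ℤ → ℕ → Submodule ℚ (C.A X)} (hG : GoodFil H G)
    (hb : Bdd (C := C) G) {Amp : ∀ X : 𝒱.Obj, C.A X → Prop} (hS : HasPointSections H Amp)
    (hA : Amp X D) (hB : LefschetzB H D) {π : ℕ → C.A (X.prod X)} (hπ : IsCK H X π) (n : ℕ) :
    G X X.dim n = ckFil C π X.dim n := by
  have hr : ∀ j : ℕ, IsProj H X j (C.act (π j)) (H.act (H.cl (π j))) := fun j => by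
    have hd : π j ∈ C.gr (X.prod X) ((X.dim : ℤ) + 0) := by rw [add_zero]; exact hπ.deg j
    exact ⟨Realised.of hd, fun a ha => hπ.act_self j a ha, fun m hm a ha => hπ.act_ne j m a hm ha⟩
  have h5 : ∀ (n : ℕ) (x : C.A X), x ∈ G X X.dim n → ∀ j : ℕ, (j : ℤ) ≠ 2 * X.dim - n →
      C.act (π j) x ∈ G X X.dim (n + 1) := fun n x hx j hj =>
    five_zero hG hb hS X.dim X D rfl hA hB n x hx j hj _ _ (hr j)
  have hst : ∀ (n : ℕ) (x : C.A X) (j : ℕ), x ∈ G X X.dim n → C.act (π j) x ∈ G X X.dim n := by
    intro n x j hx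
    have := hG.stable (hr j).real hx
    rwa [add_zero] at this
  have hlow : ∀ (j : ℕ) (x : C.A X), C.Deg X.dim x → ∀ n, j + n ≤ 2 * X.dim →
      C.act (π j) x ∈ G X X.dim n := by
    intro j x hx n
    induction n with
    | zero => intro _; exact hst 0 x j ((hG.zero X _ x).2 hx)
    | succ n ih =>
      intro hn
      have h1 := h5 n _ (ih (by omega)) j (by omega)
      rw [← C.act_comp, hπ.idem] at h1
      exact h1
  have hhigh : ∀ (j : ℕ) (x : C.A X) (n : ℕ), 2 * X.dim < j + n → x ∈ G X X.dim n →
      C.act (π j) x = 0 := by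
    intro j x n hn hx
    have key : ∀ m : ℕ, C.act (π j) x ∈ G X X.dim (n + m) := by
      intro m
      induction m with
      | zero => exact hst n x j hx
      | succ m ih =>
        have h1 := h5 (n + m) _ ih j (by push_cast; omega)
        rw [← C.act_comp, hπ.idem] at h1
        exact h1
    exact hb X _ (n + (X.dim + 1)) _ (by push_cast; omega) (key _)
  ext x
  rw [hπ.mem_ckFil]
  constructor
  · intro hx
    refine ⟨(hG.zero X _ x).1 (hG.anti' X _ (Nat.zero_le n) hx), fun j hj => ?_⟩
    exact hhigh j x n (by omega) hx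
  · rintro ⟨hx, h⟩
    have hsum : x = ∑ w ∈ Finset.range (2 * X.dim + 1), C.act (π w) x := by
      have h1 : C.act (∑ i ∈ Finset.range (2 * X.dim + 1), π i) x = x := by
        rw [hπ.sum, act_dg]
      have h2 : C.act (∑ i ∈ Finset.range (2 * X.dim + 1), π i) x =
          ∑ w ∈ Finset.range (2 * X.dim + 1), C.act (π w) x := by
        rw [TheoryData.act_apply, Finset.sum_mul, map_sum]
        rfl
      rw [← h2, h1]
    rw [hsum]
    refine Submodule.sum_mem _ fun w _ => ?_
    by_cases hw : 2 * X.dim + 1 - n ≤ w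
    · rw [h w hw]
      exact Submodule.zero_mem _
    · exact hlow w x hx n (by omega)

end Pool.Agent.U435.BB
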