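import Pool.Agent.U435.BB.Main0

/-!
# Bloch-Beilinson filtrations are generated by composites
-/

set_option autoImplicit false

open CategoryTheory AlgebraicGeometry

universe u v w

namespace Pool.Agent.U435.BB

open Pool.Agent.H914 Pool.Agent.H914.VarClass Pool.Agent.H914.VarClass.Obj Pool.Agent.W492.BB
  Pool.Agent.W550.Corr Pool.Agent.TH133 Pool.Agent.Q73.LS

set_option linter.unusedSectionVars false
set_option linter.unusedTactic false

variable {k : Type u} [Field k] {𝒱 : VarClass k} {C : TheoryData.{u, v, 0} 𝒱 ℚ} {K : Type w}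
  [Field K] [hC : IsChowProj C] {H : WeilTheoryData.{u, v, w} C K} [hH : IsWeilProj H]
  {X Y Z W : 𝒱.Obj} {D : C.A X}

include hC hH

/-- Property 5 for arbitrary correspondences. -/
def Motivic (H : WeilTheoryData.{u, v, w} C K)
    (G : ∀ X : 𝒱.Obj, ℤ → ℕ → Submodule ℚ (C.A X)) : Prop :=
  ∀ {X Y : 𝒱.Obj} {e : ℤ} {φ : C.A X → C.A Y} {ψ : H.A X → H.A Y}, Realised H X Y e φ ψ →
    ∀ {i : ℤ} {n : ℕ} {x}, x ∈ G X i n → (∀ a ∈ H.gr X (2 * i - n), ψ a = 0) →
      φ x ∈ G Y (i + e) (n + 1)

variable {G : ∀ X : 𝒱.Obj, ℤ → ℕ → Submodule ℚ (C.A X)}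

lemma sup_stable (hG : GoodFil H G) {e : ℤ} {φ : C.A X → C.A Y} {ψ : H.A X → H.A Y}
    (h : Realised H X Y e φ ψ) {i : ℤ} {n : ℕ} {x} (hx : x ∈ P H X i n ⊔ G X i (n + 1)) :
    φ x ∈ P H Y (i + e) n ⊔ G Y (i + e) (n + 1) := by
  obtain ⟨y, hy, z, hz, rfl⟩ := Submodule.mem_sup.1 hx
  rw [(rlin h).1]
  exact Submodule.add_mem_sup (P_stable h hy) (hG.stable h hz)

lemma sup_shift (hG : GoodFil H G) {e : ℤ} {φ : C.A X → C.A Y} {ψ : H.A X → H.A Y}
    (h : Realised H X Y e φ ψ) (h0 : ∀ a, ψ a = 0) {i : ℤ} {n : ℕ} {x}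
    (hx : x ∈ P H X i n ⊔ G X i (n + 1)) :
    φ x ∈ P H Y (i + e) (n + 1) ⊔ G Y (i + e) (n + 2) := by
  obtain ⟨y, hy, z, hz, rfl⟩ := Submodule.mem_sup.1 hx
  rw [(rlin h).1]
  exact Submodule.add_mem_sup (P_shift h h0 hy) (hG.shift h h0 hz)

/-- The main step: modulo `F^(n+1)`, the step `F^n` consists of composites of length `n`. -/
theorem claim (hG : GoodFil H G) (hb : Bdd (C := C) G) (hM : Motivic H G)
    {Amp : ∀ X : 𝒱.Obj, C.A X → Prop} (hS : HasSections H Amp) :
    ∀ (n i : ℕ) (X : 𝒱.Obj) (D : C.A X), Amp X D → LefschetzB H D →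
      ∀ x : C.A X, x ∈ G X i n → x ∈ P H X i n ⊔ G X i (n + 1) := by
  intro n
  induction n with
  | zero =>
    intro i X _ _ _ x hx
    exact Submodule.mem_sup_left ((P_zero X _ x).2 ((hG.zero X _ x).1 hx))
  | succ n ihn =>
    rcases Nat.eq_zero_or_pos n with rfl | hn
    · intro i X _ _ _ x hx
      have h2 := (hG.one X _ x).1 hx
      exact Submodule.mem_sup_left (P_one h2.1 h2.2)
    obtain ⟨k, rfl⟩ : ∃ k, n = k + 1 := ⟨n - 1, by omega⟩
    intro i
    induction i using Nat.strong_induction_on with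
    | _ i hi =>
    suffices h : ∀ (d : ℕ) (X : 𝒱.Obj) (D : C.A X), X.dim = d → Amp X D → LefschetzB H D →
        ∀ x : C.A X, x ∈ G X i (k + 1 + 1) → x ∈ P H X i (k + 1 + 1) ⊔ G X i (k + 1 + 1 + 1) from
      fun X D hA hB x hx => h X.dim X D rfl hA hB x hx
    intro d
    induction d using Nat.strong_induction_on with
    | _ d hd =>
    intro X D hX hA hB x hx
    rcases Nat.lt_or_ge i (k + 2) with h1 | h1
    · rw [hb X _ _ x (by exact_mod_cast h1) hx]
      exact Submodule.zero_mem _
    obtain ⟨j, hj⟩ : ∃ j : ℕ, 2 * i = j + (k + 2) := ⟨2 * i - (k + 2), by omega⟩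
    rcases Nat.lt_or_ge (2 * d) j with h2 | h2
    · have h3 := hM (Realised.id X) hx (fun a ha => H_top (by push_cast at *; omega) ha)
      rw [add_zero] at h3
      exact Submodule.mem_sup_right h3
    rcases Nat.lt_or_ge d j with h3 | h3
    · -- `j > dim X`
      have hl : 2 * d - j ≤ X.dim := by omega
      obtain ⟨θ, τ, hr, -, h4⟩ := lefInv hB hl
      have hLd := rpow (H := H) hB.deg (X.dim - (2 * d - j))
      have h5 : Realised H X X 0 (fun x => x - D ^ (X.dim - (2 * d - j)) * θ x)
          (fun a => a - H.cl D ^ (X.dim - (2 * d - j)) * τ a) :=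
        (Realised.id X).sub ((hr.comp hLd).congr (by omega) (fun _ => rfl) (fun _ => rfl))
      have h6 := hM h5 hx (fun a ha => by
        rw [h4 a (by
          rw [show 2 * (X.dim : ℤ) - ((2 * d - j : ℕ) : ℤ) = 2 * i - ((k + 1 + 1 : ℕ) : ℤ) by
            push_cast; omega]
          exact ha), sub_self])
      rw [add_zero] at h6
      have h7 := hG.stable hr hx
      have h8 : θ x ∈ P H X (i + (((2 * d - j : ℕ) : ℤ) - X.dim)) (k + 1 + 1) ⊔
          G X (i + (((2 * d - j : ℕ) : ℤ) - X.dim)) (k + 1 + 1 + 1) := by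
        rcases lt_or_ge ((i : ℤ) + (((2 * d - j : ℕ) : ℤ) - X.dim)) 0 with h9 | h9
        · rw [hb X _ _ _ (by push_cast; omega) h7]
          exact Submodule.zero_mem _
        · obtain ⟨i', hi'⟩ := exists_nat_of_nonneg h9
          rw [hi'] at h7 ⊢
          exact hi i' (by omega) X D hA hB _ h7
      have h9 := sup_stable hG hLd h8
      rw [show (i : ℤ) + (((2 * d - j : ℕ) : ℤ) - X.dim) + ((X.dim - (2 * d - j) : ℕ) : ℤ) = i by
        omega] at h9
      have := Submodule.add_mem _ (Submodule.mem_sup_right h6) h9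
      rwa [sub_add_cancel] at this
    have hd2 : 2 ≤ X.dim := by omega
    rcases Nat.lt_or_ge j d with h4 | h4
    · -- `j < dim X`
      obtain ⟨Z, f, z, hZ, hf, hBf, hAZ, hBZ, hz, hfz⟩ := exists_section (hS X D hA hd2 X.dim 0
        (Submodule.zero_mem _) (by omega)) hB
      have hpf : Realised H Z X 1 (C.push f) (H.push f) :=
        (Realised.push f).congr (by omega) (fun _ => rfl) (fun _ => rfl)
      obtain ⟨μ, ν, hr, h5⟩ := lefLeft hBf (show j + 1 ≤ X.dim by omega)
      have h6 : Realised H X X 0 (fun x => x - μ (C.push f (C.pull f x)))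
          (fun a => a - ν (H.push f (H.pull f a))) :=
        (Realised.id X).sub ((((Realised.pull f).comp hpf).comp hr).congr (by ring)
          (fun _ => rfl) (fun _ => rfl))
      have h7 := hM h6 hx (fun a ha => by
        rw [push_pull_H, h5 a (by
          rw [show (j : ℤ) = 2 * i - ((k + 1 + 1 : ℕ) : ℤ) by push_cast; omega]
          exact ha), sub_self])
      rw [add_zero] at h7
      have h8 := hG.stable (Realised.pull (H := H) f) hx
      rw [add_zero] at h8
      have h9 := sup_stable hG (hpf.comp hr) (hd Z.dim (by omega) Z _ rfl hAZ hBZ _ h8)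
      rw [show (i : ℤ) + (1 + -1) = i by ring] at h9
      have := Submodule.add_mem _ (Submodule.mem_sup_right h7) h9
      rwa [sub_add_cancel] at this
    -- `j = dim X`
    have hjd : j = d := by omega
    subst hjd
    obtain ⟨i', rfl⟩ : ∃ i', i = i' + 1 := ⟨i - 1, by omega⟩
    obtain ⟨Z, f, z, hZ, hf, hBf, hAZ, hBZ, hz, hfz⟩ := exists_section (hS X D hA hd2 (i' + 1) x
      ((hG.zero X _ _).1 (hG.anti' X _ (Nat.zero_le _) hx)) (by omega)) hB
    have hpf : Realised H Z X 1 (C.push f) (H.push f) :=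
      (Realised.push f).congr (by omega) (fun _ => rfl) (fun _ => rfl)
    rw [show ((i' + 1 : ℕ) : ℤ) - 1 = i' by push_cast; ring] at hz
    have key : ∀ a : ℕ, a ≤ k + 1 → z ∈ G Z i' a := by
      intro a
      induction a with
      | zero => intro _; exact (hG.zero Z _ z).2 hz
      | succ a iha =>
        intro ha
        have hza := iha (by omega)
        obtain ⟨γ, ρ, hr, h3⟩ := secInv hZ hf hBf
          (show 2 * (i' - k - 1) + a < Z.dim by omega)
        have h5 : Realised H Z Z 0 (fun x => x - γ (C.push f x))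
            (fun b => b - ρ (H.push f b)) :=
          (Realised.id Z).sub ((hpf.comp hr).congr (by ring) (fun _ => rfl) (fun _ => rfl))
        have h6 := hM h5 hza (fun b hb' => by
          rw [h3 b (by
            rw [show 2 * (Z.dim : ℤ) - ((2 * (i' - k - 1) + a : ℕ) : ℤ) = 2 * i' - a by
              push_cast; omega]
            exact hb'), sub_self])
        rw [add_zero, hfz] at h6
        have h9 := hG.stable hr (hG.anti' X _ (show a + 1 ≤ k + 1 + 1 by omega) hx)
        rw [show ((i' + 1 : ℕ) : ℤ) + -1 = i' by push_cast; ring] at h9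
        have := Submodule.add_mem _ h6 h9
        rwa [sub_add_cancel] at this
    have hzk := key (k + 1) (le_refl _)
    have hzP := ihn i' Z _ hAZ hBZ z hzk
    -- push-forwards of classes in `F^(k+2)`
    have hQ : ∀ u : C.A Z, u ∈ G Z i' (k + 1 + 1) → C.push f u ∈
        P H X ((i' + 1 : ℕ) : ℤ) (k + 1 + 1) ⊔ G X ((i' + 1 : ℕ) : ℤ) (k + 1 + 1 + 1) := by
      intro u hu
      obtain ⟨μ, ν, hr, h5⟩ := lefLeft hBf (show j - 2 + 1 ≤ X.dim by omega)
      have h6 : Realised H Z Z 0 (fun x => x - C.pull f (μ (C.push f x)))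
          (fun a => a - H.pull f (ν (H.push f a))) :=
        (Realised.id Z).sub (((hpf.comp hr).comp (Realised.pull f)).congr (by ring)
          (fun _ => rfl) (fun _ => rfl))
      have h7 := hM h6 hu (fun a ha => by
        have ha' : a ∈ H.gr Z ((j - 2 : ℕ) : ℤ) := by
          rw [show ((j - 2 : ℕ) : ℤ) = 2 * i' - ((k + 1 + 1 : ℕ) : ℤ) by push_cast; omega]
          exact ha
        obtain ⟨a', hda, rfl⟩ := hf (j - 2) (by omega) a ha'
        rw [push_pull_H, h5 a' hda, sub_self])
      rw [add_zero] at h7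
      have h8 := hG.stable hpf h7
      rw [show (i' : ℤ) + 1 = ((i' + 1 : ℕ) : ℤ) by push_cast; ring] at h8
      have h9 := hG.stable (hpf.comp hr) hu
      rw [show (i' : ℤ) + (1 + -1) = i' by ring] at h9
      have h10 := sup_stable hG ((Realised.pull f).comp hpf) (hi i' (by omega) X D hA hB _ h9)
      rw [show (i' : ℤ) + (0 + 1) = ((i' + 1 : ℕ) : ℤ) by push_cast; ring] at h10
      have := Submodule.add_mem _ (Submodule.mem_sup_right h8) h10
      rw [map_sub] at this
      change C.push f u - C.push f (C.pull f (μ (C.push f u))) +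
        C.push f (C.pull f (μ (C.push f u))) ∈ _ at this
      rwa [sub_add_cancel] at this
    obtain ⟨φ, ψ, hp⟩ := exists_proj (H := H) hBZ ((j : ℤ) - 1)
    obtain ⟨μ, ν, hr, h5⟩ := lefRight hBf (show j - 1 + 1 ≤ X.dim by omega)
    have he : Realised H Z Z 0 (fun x => C.pull f (μ (C.push f x)))
        (fun a => H.pull f (ν (H.push f a))) :=
      ((hpf.comp hr).comp (Realised.pull f)).congr (by ring) (fun _ => rfl) (fun _ => rfl)
    have hw : z - φ z ∈ G Z i' (k + 1 + 1) := by
      have h6 := hM ((Realised.id Z).sub hp.real) hzk (fun a ha => by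
        rw [hp.self a (by
          rw [show (j : ℤ) - 1 = 2 * i' - ((k + 1 : ℕ) : ℤ) by push_cast; omega]
          exact ha), sub_self])
      rwa [add_zero] at h6
    have hez : C.pull f (μ x) ∈ G Z i' (k + 1 + 1) := by
      have h6 := hG.stable (hr.comp (Realised.pull f)) hx
      rwa [show ((i' + 1 : ℕ) : ℤ) + (-1 + 0) = i' by push_cast; ring] at h6
    have hT : Realised H Z X 1 (fun z => C.push f (φ z - C.pull f (μ (C.push f (φ z)))))
        (fun a => H.push f (ψ a - H.pull f (ν (H.push f (ψ a))))) :=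
      ((hp.real.comp ((Realised.id Z).sub he)).comp hpf).congr (by ring) (fun _ => rfl)
        (fun _ => rfl)
    have hT0 : ∀ a, H.push f (ψ a - H.pull f (ν (H.push f (ψ a)))) = 0 := by
      apply rext hT
      intro m a ha
      by_cases hm : m = (j : ℤ) - 1
      · subst hm
        have h6 : H.push f a ∈ H.gr X (2 * X.dim - ((j - 1 : ℕ) : ℤ)) := by
          have := rmemH hpf ha
          rwa [show (j : ℤ) - 1 + 2 * 1 = 2 * X.dim - ((j - 1 : ℕ) : ℤ) by omega] at this
        rw [hp.self a ha, map_sub, push_pull_H, h5 _ h6, sub_self]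
      · rw [hp.ne m hm a ha]
        have e0 := (rlin ((hpf.comp hr).comp (Realised.pull (H := H) f))).2.2.2.2.2.1
        change H.pull f (ν (H.push f 0)) = 0 at e0
        rw [e0, sub_zero, map_zero]
    have h6 := sup_shift hG hT hT0 hzP
    rw [show (i' : ℤ) + 1 = ((i' + 1 : ℕ) : ℤ) by push_cast; ring] at h6
    have h7 := hG.stable ((Realised.id Z).sub he) hw
    rw [add_zero] at h7
    have h8 := hQ _ h7
    have h9 := hQ _ hez
    have h10 := Submodule.add_mem _ h9 (Submodule.add_mem _ h6 h8)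
    have e2 := (rlin he).2.1 z (φ z)
    change C.pull f (μ (C.push f (z - φ z))) = C.pull f (μ (C.push f z)) -
      C.pull f (μ (C.push f (φ z))) at e2
    have e1 : x = C.push f (C.pull f (μ x)) +
        (C.push f (φ z - C.pull f (μ (C.push f (φ z)))) +
          C.push f ((z - φ z) - C.pull f (μ (C.push f (z - φ z))))) := by
      rw [e2, hfz, ← map_add, ← map_add, ← hfz]
      congr 1
      abel
    rw [e1]
    exact h10

/-- **A Bloch-Beilinson filtration is the filtration by composites.** -/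
theorem eq_P (hG : GoodFil H G) (hb : Bdd (C := C) G) (hM : Motivic H G)
    {Amp : ∀ X : 𝒱.Obj, C.A X → Prop} (hS : HasSections H Amp)
    (hA : Amp X D) (hB : LefschetzB H D) (i n : ℕ) : G X i n = P H X i n := by
  refine le_antisymm ?_ (P_le hG X i n)
  exact le_P_of_step hb X i (i + 1) (by push_cast; omega)
    (fun n x hx => claim hG hb hM hS n i X D hA hB x hx) n

end Pool.Agent.U435.BB
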