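import Pool.Agent.U435.BB.Final
import Pool.Agent.X308.S.BBMain

/-!
# Bloch-Beilinson filtrations, composites, and the filtrations of Murre
-/

set_option autoImplicit false

open CategoryTheory AlgebraicGeometry

universe u v w

namespace Pool.Agent.U435.BB

open Pool.Agent.H914 Pool.Agent.H914.VarClass Pool.Agent.H914.VarClass.Obj Pool.Agent.W492.BB
  Pool.Agent.W550.Corr Pool.Agent.TH133 Pool.Agent.Q73.LS Pool.Agent.X308.S

set_option linter.unusedSectionVars false

variable {k : Type u} [Field k] {𝒱 : VarClass k} {C : TheoryData.{u, v, 0} 𝒱 ℚ} {K : Type w}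
  [Field K]

variable [hC : IsChowProj C] {H : WeilTheoryData.{u, v, w} C K} [hH : IsWeilProj H]
  {X Y Z W : 𝒱.Obj} {D : C.A X}

include hC hH

/-- Property 5 for all correspondences. -/
lemma isBBOn_of_isBB {F : Filtration C} (hF : IsBB H F) (hK : KunnethConjecture H) :
    IsBBOn H (fun _ => True) F := by
  obtain ⟨hG, hb⟩ := good_of_filtration hF.bounded hF.multiplicative
  have hM : Motivic H (ext F.F) := @motivic_of_isBB _ _ _ _ _ _ _ H _ F hF hK
  refine ⟨⟨fun X _ => hF.bounded.zero X, fun X _ => hF.bounded.one X, fun X _ => hF.bounded.top X⟩,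
    ⟨fun X _ i j m n x y => hF.multiplicative.mul, fun X Y _ _ f i n y => hF.multiplicative.pull f,
      fun X Y _ _ f i j n x => hF.multiplicative.push f⟩, ?_⟩
  intro X Y _ _ i j n Γ hΓ x hx
  have hΓ' : Γ ∈ C.gr (X.prod Y) ((X.dim : ℤ) + ((j : ℤ) - i)) := by
    rw [← add_sub_assoc]; exact hΓ
  have hr := Realised.of (H := H) hΓ'
  have hx' : x ∈ ext F.F X i n := by rw [ext_nat]; exact hx
  have e : ((i : ℤ) + ((j : ℤ) - i)) = j := by ring
  constructor
  · have h1 := hG.stable hr hx'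
    rw [e, ext_nat] at h1
    exact h1
  · intro hk
    have h1 := hM hr hx' (fun a ha => hk a ha)
    rw [e, ext_nat] at h1
    exact h1

/-- Bloch-Beilinson filtrations, Murre's filtrations and composites. -/
theorem murre_by_composites {Amp : ∀ X : 𝒱.Obj, C.A X → Prop} (hS : HasSections H Amp)
    (hL : ∀ X : 𝒱.Obj, ∃ D : C.A X, Amp X D ∧ LefschetzB H D) :
    (((∀ (X : 𝒱.Obj) (i : ℕ), compSpan H X i (i + 1) = ⊥) ∧
      ∀ (X : 𝒱.Obj) (i n : ℕ) (Γ : C.A (X.prod X)), C.Deg X.dim Γ → Kills H Γ (2 * i - n) →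
        ∀ x ∈ compSpan H X i n, C.act Γ x ∈ compSpan H X i (n + 1)) ↔
      ∃ F : Filtration C, IsBB H F) ∧
    ∀ F : Filtration C, IsBB H F → ∀ X : 𝒱.Obj, (∃ π, IsCK H X π) ∧
      ∀ π, IsCK H X π → ∀ i n : ℕ, ckFil C π i n = F.F X i n ∧ F.F X i n = compSpan H X i n := by
  have hK : KunnethConjecture H :=
    kunneth_of_lefschetz fun X => let ⟨D, h⟩ := hL X; ⟨D, h.2⟩
  refine ⟨⟨fun ⟨h1, h2⟩ => ?_, fun h => ?_⟩, fun F hF X => ?_⟩
  · exact (exists_isBB_iff hS hL).2 ⟨fun X i x hx => by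
      have h3 : x ∈ compSpan H X i (i + 1) := Submodule.subset_span hx
      rw [h1 X i] at h3
      exact (Submodule.mem_bot _).1 h3, fun _ X i n Γ hΓ hk x hx => h2 X i n Γ hΓ hk x hx⟩
  · obtain ⟨h1, h2⟩ := (exists_isBB_iff hS hL).1 h
    refine ⟨fun X i => ?_, fun X i n Γ hΓ hk x hx => h2 hK X i n Γ hΓ hk x hx⟩
    refine le_bot_iff.1 (Submodule.span_le.2 fun y hy => ?_)
    rw [h1 X i y hy]
    exact Submodule.zero_mem _
  · obtain ⟨hG, hb⟩ := good_of_filtration hF.bounded hF.multiplicative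
    obtain ⟨D, hA, hB⟩ := hL X
    exact ⟨exists_isCK hG hb (exists_proj hB), fun π hπ i n =>
      ⟨((isBBOn_of_isBB hF hK).eq_ckFil trivial hπ i n).symm,
        eq_composites_at hS F hF hK X D hA hB i n⟩⟩

end Pool.Agent.U435.BB
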