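import Pool.Agent.U435.BB.Kun

/-!
# Hypersurface sections and the standard conjecture B
-/

set_option autoImplicit false

open CategoryTheory AlgebraicGeometry

universe u v w

namespace Pool.Agent.U435.BB

open Pool.Agent.H914 Pool.Agent.H914.VarClass Pool.Agent.H914.VarClass.Obj Pool.Agent.W492.BB
  Pool.Agent.W550.Corr Pool.Agent.TH133 Pool.Agent.Q73.LS

set_option linter.unusedSectionVars false
set_option linter.unusedTactic false

variable {k : Type u} [Field k] {𝒱 : VarClass k} {C : TheoryData.{u, v, 0} 𝒱 ℚ} {K : Type w}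
  [Field K] [hC : IsChowProj C] {H : WeilTheoryData.{u, v, w} C K} [hH : IsWeilProj H]
  {X Y Z W : 𝒱.Obj} {D : C.A X}

include hC hH

lemma lefLeft (hB : LefschetzB H D) {j : ℕ} (hj : j + 1 ≤ X.dim) :
    ∃ φ ψ, Realised H X X (-1) φ ψ ∧ ∀ a ∈ H.gr X j, ψ (H.cl D * a) = a := by
  obtain ⟨θ, τ, hr, h1, -⟩ := lefInv hB (show j ≤ X.dim by omega)
  refine ⟨_, _, (((rpow (H := H) hB.deg (X.dim - j - 1)).comp hr).congr ?_ (fun _ => rfl)
    (fun _ => rfl)), fun a ha => ?_⟩
  · omega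
  · change τ (H.cl D ^ (X.dim - j - 1) * (H.cl D * a)) = a
    rw [← mul_assoc, ← pow_succ, show X.dim - j - 1 + 1 = X.dim - j by omega, h1 a ha]

lemma lefRight (hB : LefschetzB H D) {j : ℕ} (hj : j + 1 ≤ X.dim) :
    ∃ φ ψ, Realised H X X (-1) φ ψ ∧ ∀ b ∈ H.gr X (2 * X.dim - j), H.cl D * ψ b = b := by
  obtain ⟨θ, τ, hr, -, h1⟩ := lefInv hB (show j ≤ X.dim by omega)
  refine ⟨_, _, ((hr.comp (rpow (H := H) hB.deg (X.dim - j - 1))).congr ?_ (fun _ => rfl)
    (fun _ => rfl)), fun a ha => ?_⟩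
  · omega
  · change H.cl D * (H.cl D ^ (X.dim - j - 1) * τ a) = a
    rw [← mul_assoc, ← pow_succ', show X.dim - j - 1 + 1 = X.dim - j by omega, h1 a ha]

variable {f : Z ⟶ X}

omit hH in
lemma push_pull_C (f : Z ⟶ X) (x : C.A X) : C.push f (C.pull f x) = C.push f 1 * x := by
  have := C.proj_right f 1 x
  rwa [one_mul] at this

lemma push_pull_H (f : Z ⟶ X) (a : H.A X) :
    H.push f (H.pull f a) = H.cl (C.push f 1) * a := by
  rw [H.cl_push, map_one]
  have := H.proj_right f 1 a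
  rwa [one_mul] at this

/-- `f_*` is injective above the middle degree. -/
lemma push_inj (hf : OntoBelow H f) {i : ℤ} (hi : (Z.dim : ℤ) < i) {b : H.A Z}
    (hb : b ∈ H.gr Z i) (h0 : H.push f b = 0) : b = 0 := by
  apply H.nondeg
  intro c
  have h2 : c ∈ ⨆ i, H.gr Z i := by
    rw [(H.isInternal Z).submodule_iSup_eq_top]; trivial
  have h3 : ⨆ i, H.gr Z i ≤ LinearMap.ker (H.tr Z ∘ₗ LinearMap.mulLeft K b) := by
    refine iSup_le fun m c hc => LinearMap.mem_ker.2 ?_
    change H.tr Z (b * c) = 0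
    by_cases hm : i + m = 2 * Z.dim
    · rcases lt_or_ge m 0 with h | h
      · rw [H_neg h hc, mul_zero, map_zero]
      · obtain ⟨l, rfl⟩ := Int.eq_ofNat_of_zero_le h
        obtain ⟨c', hc', rfl⟩ := hf l (by omega) c hc
        rw [← H.tr_push f, H.proj_right, h0, zero_mul, map_zero]
    · exact tr_zero H (H.mul_mem hb hc) hm
  exact LinearMap.mem_ker.1 (h3 h2)

/-- A partial inverse of `f_*`. -/
lemma secInv (hd : Z.dim + 1 = X.dim) (hf : OntoBelow H f) (hB : LefschetzB H (C.push f 1))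
    {a : ℕ} (ha : a < Z.dim) : ∃ φ ψ, Realised H X Z (-1) φ ψ ∧
      ∀ b ∈ H.gr Z (2 * Z.dim - a), ψ (H.push f b) = b := by
  obtain ⟨φ, ψ, hr, h1⟩ := lefRight hB (show a + 1 ≤ X.dim by omega)
  refine ⟨_, _, ((hr.comp (Realised.pull f)).congr (by ring) (fun _ => rfl) (fun _ => rfl)),
    fun b hb => ?_⟩
  change H.pull f (ψ (H.push f b)) = b
  have hb2 : H.push f b ∈ H.gr X (2 * X.dim - a) := by
    have := H.push_mem f hb
    rwa [show 2 * (Z.dim : ℤ) - a + 2 * (X.dim - Z.dim) = 2 * X.dim - a by ring] at this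
  have h3 : H.pull f (ψ (H.push f b)) ∈ H.gr Z (2 * Z.dim - a) := by
    have := H.pull_mem f (rmemH hr hb2)
    rwa [show 2 * (X.dim : ℤ) - a + 2 * (-1) = 2 * Z.dim - a by omega] at this
  have h4 := push_inj hf (show (Z.dim : ℤ) < 2 * Z.dim - a by omega)
    (Submodule.sub_mem _ h3 hb) (by
      rw [map_sub, push_pull_H, h1 _ hb2, sub_self])
  exact sub_eq_zero.1 h4

/-- `B(X)` implies `B(Z)` for the hypersurface sections `Z` of `X`. -/
lemma lefB_section (hd : Z.dim + 1 = X.dim) (hf : OntoBelow H f)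
    (hB : LefschetzB H (C.push f 1)) : LefschetzB H (C.pull f (C.push f 1)) := by
  have hD : C.push f 1 ∈ C.gr X 1 := hB.deg
  refine lefB_of (C.pull_mem f hD) fun l hl => ?_
  rcases Nat.lt_or_eq_of_le hl with hl' | rfl
  · obtain ⟨θ, τ, hr, h1, h2⟩ := lefInv hB (show l ≤ X.dim by omega)
    refine ⟨_, _, (((Realised.push f).comp hr).comp (Realised.pull f)).congr ?_ (fun _ => rfl)
      (fun _ => rfl), fun a ha => ?_, fun b hb => ?_⟩
    · omega
    · obtain ⟨a', ha', rfl⟩ := hf l hl' a ha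
      change H.pull f (τ (H.push f (H.cl (C.pull f (C.push f 1)) ^ (Z.dim - l) * H.pull f a'))) = _
      rw [H.cl_pull, ← map_pow, ← map_mul, push_pull_H, ← mul_assoc, ← pow_succ',
        show Z.dim - l + 1 = X.dim - l by omega, h1 a' ha']
    · change H.cl (C.pull f (C.push f 1)) ^ (Z.dim - l) * H.pull f (τ (H.push f b)) = b
      have hb2 : H.push f b ∈ H.gr X (2 * X.dim - l) := by
        have := H.push_mem f hb
        rwa [show 2 * (Z.dim : ℤ) - l + 2 * (X.dim - Z.dim) = 2 * X.dim - l by ring] at this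
      have h3 : H.cl (C.pull f (C.push f 1)) ^ (Z.dim - l) * H.pull f (τ (H.push f b)) ∈
          H.gr Z (2 * Z.dim - l) := by
        have h4 := rmemH (rpow (H := H) (C.pull_mem f hD) (Z.dim - l))
          (H.pull_mem f (rmemH hr hb2))
        rwa [show 2 * (X.dim : ℤ) - l + 2 * (l - X.dim) + 2 * ((Z.dim - l : ℕ) : ℤ) =
          2 * Z.dim - l by omega] at h4
      have h4 := push_inj hf (show (Z.dim : ℤ) < 2 * Z.dim - l by omega)
        (Submodule.sub_mem _ h3 hb) (by
          rw [map_sub, H.cl_pull, ← map_pow, ← map_mul, push_pull_H, ← mul_assoc, ← pow_succ',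
            show Z.dim - l + 1 = X.dim - l by omega, h2 _ hb2, sub_self])
      exact sub_eq_zero.1 h4
  · refine ⟨_, _, (Realised.id Z).congr (by ring) (fun _ => rfl) (fun _ => rfl),
      fun a _ => ?_, fun b _ => ?_⟩
    · rw [Nat.sub_self, pow_zero, one_mul]
    · rw [Nat.sub_self, pow_zero, one_mul]

end Pool.Agent.U435.BB
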