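import Pool.Agent.U435.BB.Fil

/-!
# Filtrations with the properties 1 to 4 on zero-cycles: property 5
-/

set_option autoImplicit false

open CategoryTheory AlgebraicGeometry

universe u v w

namespace Pool.Agent.U435.BB

open Pool.Agent.H914 Pool.Agent.H914.VarClass Pool.Agent.H914.VarClass.Obj Pool.Agent.W492.BB
  Pool.Agent.W550.Corr Pool.Agent.TH133 Pool.Agent.Q73.LS

set_option linter.unusedSectionVars false
set_option linter.unusedTactic false

variable {k : Type u} [Field k] {𝒱 : VarClass k} {C : TheoryData.{u, v, 0} 𝒱 ℚ} {K : Type w}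
  [Field K] [hC : IsChowProj C] {H : WeilTheoryData.{u, v, w} C K} [hH : IsWeilProj H]
  {X Y Z W : 𝒱.Obj} {D : C.A X}

include hC hH

/-- Hypersurface sections with `f_* [Z]` itself as polarization. -/
lemma exists_section {Amp : ∀ X : 𝒱.Obj, C.A X → Prop} {i : ℕ} {x : C.A X}
    (hS : SectionThrough H Amp D i x) (hB : LefschetzB H D) :
    ∃ (Z : 𝒱.Obj) (f : Z ⟶ X) (z : C.A Z), Z.dim + 1 = X.dim ∧ OntoBelow H f ∧
      LefschetzB H (C.push f 1) ∧ Amp Z (C.pull f D) ∧ LefschetzB H (C.pull f D) ∧
      z ∈ C.gr Z ((i : ℤ) - 1) ∧ C.push f z = x := by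
  obtain ⟨Z, f, z, hf, h3, h4, h5⟩ := hS
  obtain ⟨a, ha, ha'⟩ := hf.push_one
  have hB' : LefschetzB H (C.push f 1) := by
    change C.push f 1 = a • D at ha'
    rw [ha']
    exact lefB_smul hB ha
  refine ⟨Z, f, z, hf.dim, hf.onto, hB', h3, ?_, h4, h5⟩
  have h6 := lefB_smul (lefB_section hf.dim hf.onto hB') (inv_ne_zero ha)
  change C.push f 1 = a • D at ha'
  rwa [ha', map_smul, smul_smul, inv_mul_cancel₀ ha, one_smul] at h6

/-- The components of a class in the right degree. -/
lemma sub_proj {G : ∀ X : 𝒱.Obj, ℤ → ℕ → Submodule ℚ (C.A X)} (hG : GoodFil H G)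
    (hP : ∀ j : ℤ, ∃ φ ψ, IsProj H X j φ ψ) {i : ℤ} {n : ℕ} {x : C.A X} {m : ℤ}
    (h5 : ∀ j : ℤ, j ≠ m → ∀ φ ψ, IsProj H X j φ ψ → φ x ∈ G X i (n + 1))
    (hx : x ∈ G X i n)
    {e : ℤ} {φ : C.A X → C.A Y} {ψ : H.A X → H.A Y} (h : Realised H X Y e φ ψ)
    (h0 : ∀ a ∈ H.gr X m, ψ a = 0) : φ x ∈ G Y (i + e) (n + 1) := by
  refine sum_decomp h h0 hP (G Y (i + e) (n + 1)) x (fun j hj φ' ψ' hp => ?_)
    (fun φ' ψ' hr hz => hG.shift hr hz hx)
  exact hG.stable h (h5 j hj φ' ψ' hp)

/-- **Property 5 for zero-cycles.** -/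
theorem five_zero {G : ∀ X : 𝒱.Obj, ℤ → ℕ → Submodule ℚ (C.A X)} (hG : GoodFil H G)
    (hb : Bdd (C := C) G) {Amp : ∀ X : 𝒱.Obj, C.A X → Prop} (hS : HasPointSections H Amp) :
    ∀ (d : ℕ) (X : 𝒱.Obj) (D : C.A X), X.dim = d → Amp X D → LefschetzB H D →
      ∀ (n : ℕ) (x : C.A X), x ∈ G X d n → ∀ j : ℤ, j ≠ 2 * d - n → ∀ φ ψ, IsProj H X j φ ψ →
        φ x ∈ G X d (n + 1) := by
  intro d
  induction d with
  | zero =>
    intro X D hd hA hB n x hx j hj φ ψ hp
    rcases Nat.eq_zero_or_pos n with rfl | hn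
    · have h1 := hG.shift hp.real (fun a => ?_) hx
      · simpa using h1
      · apply rext hp.real
        intro m a ha
        by_cases hm : m = j
        · subst hm
          rcases two_cases m X.dim with h | h | ⟨i, hi, rfl⟩
          · rw [H_neg h ha, (rlin hp.real).2.2.2.2.2.1]
          · rw [H_top h ha, (rlin hp.real).2.2.2.2.2.1]
          · exfalso; apply hj; push_cast; omega
        · exact hp.ne m hm a ha
    · rw [hb X _ n x (by exact_mod_cast hn) hx, (rlin hp.real).2.2.1]
      exact Submodule.zero_mem _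
  | succ d ih =>
    intro X D hd hA hB n x hx j hj φ ψ hp
    have hφ := rlin hp.real
    -- reduction to degrees between 0 and 2 dim X
    by_cases hzero : ∀ a, ψ a = 0
    · have h1 := hG.shift hp.real hzero hx
      rwa [add_zero] at h1
    have hjr : ∃ l : ℕ, l ≤ 2 * X.dim ∧ j = 2 * X.dim - l := by
      rcases two_cases j X.dim with h | h | ⟨i, hi, rfl⟩
      · exfalso; apply hzero
        apply rext hp.real
        intro m a ha
        by_cases hm : m = j
        · subst hm; rw [H_neg h ha, hφ.2.2.2.2.2.1]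
        · exact hp.ne m hm a ha
      · exfalso; apply hzero
        apply rext hp.real
        intro m a ha
        by_cases hm : m = j
        · subst hm; rw [H_top h ha, hφ.2.2.2.2.2.1]
        · exact hp.ne m hm a ha
      · exact ⟨2 * X.dim - i, by omega, by omega⟩
    obtain ⟨l, hl, rfl⟩ := hjr
    have hln : l ≠ n := by rintro rfl; apply hj; rw [hd]
    -- `φ x` in `G n`
    have hφx : φ x ∈ G X ((d + 1 : ℕ) : ℤ) n := by
      have := hG.stable hp.real hx
      rwa [add_zero] at this
    have hLd : ∀ l' : ℕ, Realised H X X l' (fun x => D ^ l' * x) (fun a => H.cl D ^ l' * a) :=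
      rpow hB.deg
    rcases lt_or_ge X.dim l with h1 | h1
    · -- degrees below the middle
      have hl' : 2 * X.dim - l ≤ X.dim := by omega
      obtain ⟨θ, τ, hr, h2, -⟩ := lefInv hB hl'
      set l' := 2 * X.dim - l with hl'def
      have h3 : D ^ (X.dim - l') * φ x = 0 := by
        have h4 := rmem (hLd (X.dim - l')) (rmem hp.real ((hG.zero X _ x).1 (hG.anti' X _
          (Nat.zero_le n) hx)))
        exact hC.gr_top X _ _ h4 (by push_cast [Nat.cast_sub hl']; omega)
      have h5 : Realised H X X 0 (fun x => φ x - θ (D ^ (X.dim - l') * φ x))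
          (fun a => ψ a - τ (H.cl D ^ (X.dim - l') * ψ a)) := by
        refine hp.real.sub (((hp.real.comp (hLd (X.dim - l'))).comp hr).congr ?_ (fun _ => rfl)
          (fun _ => rfl))
        push_cast [Nat.cast_sub hl']; ring
      have h6 : ∀ a, ψ a - τ (H.cl D ^ (X.dim - l') * ψ a) = 0 := by
        apply rext h5
        intro m a ha
        by_cases hm : m = 2 * X.dim - l
        · subst hm
          have ha' : a ∈ H.gr X l' := by
            rw [hl'def, show ((2 * X.dim - l : ℕ) : ℤ) = 2 * X.dim - l by omega]; exact ha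
          rw [hp.self a ha, h2 a ha', sub_self]
        · rw [hp.ne m hm a ha, mul_zero, (rlin hr).2.2.2.2.2.1, sub_self]
      have h7 := hG.shift h5 h6 hx
      rw [h3, (rlin hr).2.2.1, sub_zero, add_zero] at h7
      exact h7
    rcases lt_or_gt_of_ne hln with h2 | h2
    · -- `l < n`
      obtain ⟨θ, τ, hr, -, h3⟩ := lefInv hB h1
      have h4 : θ (φ x) = 0 := by
        have h5 := hG.stable hr hφx
        exact hb X _ n _ (by omega) h5
      have h5 : Realised H X X 0 (fun x => φ x - D ^ (X.dim - l) * θ (φ x))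
          (fun a => ψ a - H.cl D ^ (X.dim - l) * τ (ψ a)) := by
        refine hp.real.sub (((hp.real.comp hr).comp (hLd (X.dim - l))).congr ?_ (fun _ => rfl)
          (fun _ => rfl))
        push_cast [Nat.cast_sub h1]; ring
      have h6 : ∀ a, ψ a - H.cl D ^ (X.dim - l) * τ (ψ a) = 0 := by
        apply rext h5
        intro m a ha
        by_cases hm : m = 2 * X.dim - l
        · subst hm
          rw [hp.self a ha, h3 a ha, sub_self]
        · rw [hp.ne m hm a ha, (rlin hr).2.2.2.2.2.1, mul_zero, sub_self]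
      have h7 := hG.shift h5 h6 hx
      rw [h4, mul_zero, sub_zero, add_zero] at h7
      exact h7
    -- `n < l ≤ dim X`
    rcases Nat.eq_zero_or_pos n with rfl | hn
    · have hx0 := (hG.zero X _ x).1 hx
      have h3 : φ x ∈ C.gr X ((d + 1 : ℕ) : ℤ) := (hG.zero X _ _).1 hφx
      refine (hG.one X _ _).2 ⟨h3, ?_⟩
      obtain ⟨Γ, hΓ, h4, h5⟩ := hp.real
      rw [← h4, cl_act, h5]
      exact hp.ne _ (by push_cast; omega) _ (H.cl_mem hx0)
    have hd2 : 2 ≤ X.dim := by omega
    obtain ⟨Z, f, z, hZ, hf, hBf, hAZ, hBZ, hz, hfz⟩ := exists_section (hS X D hA hd2 (φ x) (by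
      rw [hd]; exact (hG.zero X _ _).1 (hG.anti' X _ (Nat.zero_le n) hφx))) hB
    have hZd : Z.dim = d := by omega
    have hzd : z ∈ C.gr Z d := by
      have e : ((X.dim : ℤ) - 1) = d := by omega
      rwa [e] at hz
    have hPZ : ∀ j : ℤ, ∃ φ ψ, IsProj H Z j φ ψ := exists_proj hBZ
    have hPX : ∀ j : ℤ, ∃ φ ψ, IsProj H X j φ ψ := exists_proj hB
    have h5Z := ih Z (C.pull f D) hZd hAZ hBZ
    -- the level of `z`
    have key : ∀ a : ℕ, a ≤ n + 1 → a ≤ d → z ∈ G Z d a := by
      intro a
      induction a with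
      | zero => intro _ _; exact (hG.zero Z _ z).2 hzd
      | succ a iha =>
        intro ha ha'
        have hza := iha (by omega) (by omega)
        obtain ⟨γ, ρ, hr, h3⟩ := secInv hZ hf hBf (show a < Z.dim by omega)
        obtain ⟨φ', ψ', hp'⟩ := hPX (2 * X.dim - a)
        have hpf : Realised H Z X 1 (C.push f) (H.push f) :=
          (Realised.push f).congr (by omega) (fun _ => rfl) (fun _ => rfl)
        have h4 : Realised H Z Z 0 (fun x => x - γ (φ' (C.push f x)))
            (fun b => b - ρ (ψ' (H.push f b))) :=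
          (Realised.id Z).sub (((hpf.comp hp'.real).comp hr).congr (by ring)
            (fun _ => rfl) (fun _ => rfl))
        have h5 := sub_proj hG hPZ (h5Z a z hza) hza h4 (fun b hb => by
          have hb' : b ∈ H.gr Z (2 * Z.dim - a) := by rw [hZd]; exact hb
          have h6 : H.push f b ∈ H.gr X (2 * X.dim - a) := by
            have := rmemH hpf hb'
            rwa [show 2 * (Z.dim : ℤ) - a + 2 * 1 = 2 * X.dim - a by omega] at this
          rw [hp'.self _ h6, h3 b hb', sub_self])
        rw [add_zero, hfz] at h5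
        -- the other part
        have h6 : Realised H X X 0 (fun x => φ' (φ x)) (fun a => ψ' (ψ a)) :=
          (hp.real.comp hp'.real).congr (by ring) (fun _ => rfl) (fun _ => rfl)
        have h7 : ∀ a, ψ' (ψ a) = 0 := by
          apply rext h6
          intro m b hb'
          by_cases hm : m = 2 * X.dim - l
          · subst hm
            rw [hp.self b hb']
            exact hp'.ne _ (by omega) b hb'
          · rw [hp.ne m hm b hb', (rlin hp'.real).2.2.2.2.2.1]
        have h8 := hG.shift h6 h7 hx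
        have h9 := hG.stable hr (hG.anti' X _ (show a + 1 ≤ n + 1 by omega) h8)
        rw [show ((d + 1 : ℕ) : ℤ) + 0 + -1 = d by push_cast; ring] at h9
        have := Submodule.add_mem _ h5 h9
        rwa [sub_add_cancel] at this
    have hpf : Realised H Z X 1 (C.push f) (H.push f) :=
      (Realised.push f).congr (by omega) (fun _ => rfl) (fun _ => rfl)
    rcases Nat.lt_or_ge d (n + 1) with h3 | h3
    · -- `n = d`, `l = d + 1`
      have hnd : n = d := by omega
      subst hnd
      have hl1 : l = X.dim := by omega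
      have hzn := key n (by omega) (le_refl _)
      -- `φ x - φ (φ x)`
      have h4 : Realised H X X 0 (fun x => φ x - φ (φ x)) (fun a => ψ a - ψ (ψ a)) :=
        hp.real.sub ((hp.real.comp hp.real).congr (by ring) (fun _ => rfl) (fun _ => rfl))
      have h5 : ∀ a, ψ a - ψ (ψ a) = 0 := by
        apply rext h4
        intro m a ha
        by_cases hm : m = 2 * X.dim - l
        · subst hm
          rw [hp.self a ha, hp.self a ha, sub_self]
        · rw [hp.ne m hm a ha, hφ.2.2.2.2.2.1, sub_self]
      have h6 := hG.shift h4 h5 hx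
      rw [add_zero] at h6
      have h7 := sub_proj hG hPZ (h5Z n z hzn) hzn (hpf.comp hp.real) (fun b hb' => by
        have h8 := rmemH hpf hb'
        exact hp.ne _ (by omega) _ h8)
      change φ (C.push f z) ∈ _ at h7
      rw [hfz, show (n : ℤ) + (1 + 0) = ((n + 1 : ℕ) : ℤ) by push_cast; ring] at h7
      have := Submodule.add_mem _ h6 h7
      rwa [sub_add_cancel] at this
    · have h4 := hG.stable hpf (key (n + 1) (le_refl _) h3)
      rw [hfz] at h4
      exact_mod_cast h4

end Pool.Agent.U435.BB
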